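import Mathlib

set_option autoImplicit false

/-!
# Graph products over cycles: basic definitions (MP_74736d_al)

`CP n F` is the graph product over the `n`-cycle with all vertex groups `F`;
`L d k` is `(Z/2 wr Z^d) × Z/k`.
-/

namespace CQ

open Relation

/-! ## `Z^m`, colourings, coarse embeddings -/

/-- `Z^m` -/
abbrev V (m : ℕ) : Type := Fin m → ℤ

/-- sup distance on `Z^m` -/
def dI {m : ℕ} (x y : V m) : ℕ := Finset.univ.sup fun i => (x i - y i).natAbs

theorem dI_le {m : ℕ} {x y : V m} {r : ℕ} : dI x y ≤ r ↔ ∀ i, (x i - y i).natAbs ≤ r := by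
  unfold dI
  simp [Finset.sup_le_iff]

/-- `A` can be coloured by `k` colours such that, at scale `R`, monochromatic `R`-chains in `A`
have diameter at most `Δ R`. -/
def Col {X : Type*} (k : ℕ) (d : X → X → ℕ) (A : Set X) (Δ : ℕ → ℕ) : Prop :=
  ∀ R : ℕ, ∃ col : X → Fin k, ∀ x y : X, x ∈ A →
    ReflTransGen (fun a b => a ∈ A ∧ b ∈ A ∧ d a b ≤ R ∧ col a = col b) x y → d x y ≤ Δ R

/-- a coarse embedding of `Z^m` with constants `K`, `ρ` -/
def EMap {X : Type*} (m : ℕ) (d : X → X → ℕ) (K : ℕ) (ρ : ℕ → ℕ) (σ : V m → X) : Prop :=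
  (∀ x y, dI x y ≤ 1 → d (σ x) (σ y) ≤ K) ∧ ∀ S x y, d (σ x) (σ y) ≤ S → dI x y ≤ ρ S

/-! ## Norms on groups -/

/-- an integer valued norm on a group -/
structure IsNorm {G : Type*} [Group G] (ℓ : G → ℕ) : Prop where
  eq_zero : ∀ g, ℓ g = 0 ↔ g = 1
  inv : ∀ g, ℓ g⁻¹ = ℓ g
  mul_le : ∀ g h, ℓ (g * h) ≤ ℓ g + ℓ h

/-- the left invariant distance of a norm -/
def nd {G : Type*} [Group G] (ℓ : G → ℕ) (x y : G) : ℕ := ℓ (x⁻¹ * y)

/-- word length with respect to `S` (and inverses): least length of a word with value `g` -/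
noncomputable def wl {G : Type*} [Group G] (S : Set G) (g : G) : ℕ :=
  sInf {n | ∃ l : List G, l.length = n ∧ (∀ x ∈ l, x ∈ S ∨ x⁻¹ ∈ S) ∧ l.prod = g}

/-! ## Graph products over the `n`-cycle -/

/-- free product of copies of `F` indexed by `I` -/
abbrev FP (I : Type) (F : Type) [Group F] : Type := Monoid.CoprodI fun _ : I => F

/-- inclusion of the `i`-th factor in the free product -/
abbrev fof {I F : Type} [Group F] (i : I) : F →* FP I F :=
  Monoid.CoprodI.of (M := fun _ : I => F) (i := i)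

/-- the commutators of the elements of adjacent factors -/
def cycRel (n : ℕ) (F : Type) [Group F] : Set (FP (ZMod n) F) :=
  {x | ∃ (i : ZMod n) (g h : F), x = fof i g * fof (i + 1) h * (fof i g)⁻¹ * (fof (i + 1) h)⁻¹}

/-- the graph product over the `n`-cycle with all vertex groups equal to `F` -/
def CP (n : ℕ) (F : Type) [Group F] : Type :=
  FP (ZMod n) F ⧸ Subgroup.normalClosure (cycRel n F)

noncomputable instance (n : ℕ) (F : Type) [Group F] : Group (CP n F) :=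
  inferInstanceAs (Group (FP (ZMod n) F ⧸ Subgroup.normalClosure (cycRel n F)))

/-- the quotient map from the free product -/
noncomputable def CP.mk (n : ℕ) (F : Type) [Group F] : FP (ZMod n) F →* CP n F :=
  QuotientGroup.mk' (Subgroup.normalClosure (cycRel n F))

/-- the inclusion of the `i`-th vertex group -/
noncomputable def ι {n : ℕ} {F : Type} [Group F] (i : ZMod n) : F →* CP n F :=
  (CP.mk n F).comp (fof i)

theorem ι_comm {n : ℕ} {F : Type} [Group F] (i : ZMod n) (g h : F) :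
    ι i g * ι (i + 1) h = ι (i + 1) h * ι i g := by
  have h1 : (CP.mk n F) (fof i g * fof (i + 1) h * (fof i g)⁻¹ * (fof (i + 1) h)⁻¹) = 1 := by
    show (QuotientGroup.mk' (Subgroup.normalClosure (cycRel n F))) _ = 1
    rw [QuotientGroup.mk'_apply, QuotientGroup.eq_one_iff]
    exact Subgroup.subset_normalClosure ⟨i, g, h, rfl⟩
  rw [map_mul, map_mul, map_mul, map_inv, map_inv, mul_inv_eq_one, mul_inv_eq_iff_eq_mul] at h1
  exact h1

/-- universal property of the graph product -/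
noncomputable def CP.lift {n : ℕ} {F : Type} [Group F] {P : Type*} [Group P]
    (φ : ZMod n → F →* P) (hφ : ∀ i g h, φ i g * φ (i + 1) h = φ (i + 1) h * φ i g) :
    CP n F →* P :=
  QuotientGroup.lift (Subgroup.normalClosure (cycRel n F)) (Monoid.CoprodI.lift φ) (by
    intro x hx
    have : Subgroup.normalClosure (cycRel n F) ≤ (Monoid.CoprodI.lift φ).ker := by
      apply Subgroup.normalClosure_le_normal
      rintro x ⟨i, g, h, rfl⟩
      rw [SetLike.mem_coe, MonoidHom.mem_ker, map_mul, map_mul, map_mul, map_inv, map_inv,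
        mul_inv_eq_one, mul_inv_eq_iff_eq_mul]
      simpa using hφ i g h
    exact this hx)

@[simp] theorem CP.lift_ι {n : ℕ} {F : Type} [Group F] {P : Type*} [Group P]
    (φ : ZMod n → F →* P) (hφ : ∀ i g h, φ i g * φ (i + 1) h = φ (i + 1) h * φ i g)
    (i : ZMod n) (g : F) : CP.lift φ hφ (ι i g) = φ i g := by
  show (Monoid.CoprodI.lift φ) (fof i g) = φ i g
  simp

/-- induction: right multiplication by vertex group elements -/
theorem CP.induction_right {n : ℕ} {F : Type} [Group F] {p : CP n F → Prop} (h1 : p 1)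
    (hs : ∀ w i s, p w → p (w * ι i s)) (w : CP n F) : p w := by
  obtain ⟨x, rfl⟩ := QuotientGroup.mk'_surjective (Subgroup.normalClosure (cycRel n F)) w
  have key : ∀ (x : FP (ZMod n) F) (w : CP n F), p w → p (w * CP.mk n F x) := by
    intro x
    induction x using Monoid.CoprodI.induction_on with
    | one => intro w hw; rw [map_one]; simpa using hw
    | of i m => intro w hw; exact hs w i m hw
    | mul x y hx hy =>
      intro w hw
      rw [map_mul, ← mul_assoc]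
      exact hy _ (hx _ hw)
  have := key x 1 h1
  rw [one_mul] at this
  exact this

/-- two homs out of the graph product agreeing on the vertex groups are equal -/
theorem CP.hom_ext {n : ℕ} {F : Type} [Group F] {P : Type*} [Group P] {f g : CP n F →* P}
    (h : ∀ i s, f (ι i s) = g (ι i s)) : f = g := by
  ext w
  induction w using CP.induction_right with
  | h1 => simp
  | hs w i s hw => rw [map_mul, map_mul, hw, h]

/-- the syllable norm on the graph product -/
noncomputable def gN {n : ℕ} {F : Type} [Group F] (ℓ : F → ℕ) (w : CP n F) : ℕ :=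
  sInf {s | ∃ l : List (ZMod n × F), (l.map fun p => ι p.1 p.2).prod = w ∧
    (l.map fun p => ℓ p.2).sum = s}

/-- the subgroup generated by the two neighbours of `i` -/
noncomputable def Lam {n : ℕ} {F : Type} [Group F] (i : ZMod n) : Subgroup (CP n F) :=
  (ι (i - 1)).range ⊔ (ι (i + 1)).range

/-- the star subgroup -/
noncomputable def St {n : ℕ} {F : Type} [Group F] (i : ZMod n) : Subgroup (CP n F) :=
  (ι i).range ⊔ Lam i

/-- the flat subgroup -/
noncomputable def Fl {n : ℕ} {F : Type} [Group F] (i : ZMod n) : Subgroup (CP n F) :=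
  (ι i).range ⊔ (ι (i + 1)).range

/-- tree-walls: cosets of star subgroups -/
def TW (n : ℕ) (F : Type) [Group F] : Type := (i : ZMod n) × (CP n F ⧸ (St i : Subgroup (CP n F)))

/-- the tree-wall of type `i` through `w` -/
noncomputable def tw {n : ℕ} {F : Type} [Group F] (i : ZMod n) (w : CP n F) : TW n F :=
  ⟨i, (w : CP n F ⧸ (St i : Subgroup (CP n F)))⟩

/-- `w` lies on the tree-wall `J` -/
def TW.has {n : ℕ} {F : Type} [Group F] (J : TW n F) (w : CP n F) : Prop := tw J.1 w = J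

/-- crossing tree-walls -/
def Crs {n : ℕ} {F : Type} [Group F] (J K : TW n F) : Prop :=
  (J.1 = K.1 + 1 ∨ K.1 = J.1 + 1) ∧ ∃ w, J.has w ∧ K.has w

/-! ## The groups `(Z/2 wr Z^d) × Z/k` -/

/-- `(Z/2 wr Z^d) × Z/k` -/
@[ext] structure L (d k : ℕ) : Type where
  lamp : V d → ZMod 2
  pos : V d
  rot : ZMod k
  fin : (Function.support lamp).Finite

namespace L

variable {d k : ℕ}

instance : Mul (L d k) where
  mul a b :=
    { lamp := fun q => a.lamp q + b.lamp (q - a.pos)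
      pos := a.pos + b.pos
      rot := a.rot + b.rot
      fin := by
        apply (a.fin.union (b.fin.image fun q => q + a.pos)).subset
        intro q hq
        by_contra hcon
        simp only [Set.mem_union, Set.mem_image, Function.mem_support, not_or, not_exists,
          not_and, not_not] at hcon
        apply hq
        have h2 : b.lamp (q - a.pos) = 0 := by
          by_contra h3
          exact hcon.2 _ h3 (by simp)
        show a.lamp q + b.lamp (q - a.pos) = 0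
        rw [hcon.1, h2, add_zero] }

instance : One (L d k) where
  one := { lamp := 0, pos := 0, rot := 0, fin := by simp }

instance : Inv (L d k) where
  inv a :=
    { lamp := fun q => a.lamp (q + a.pos)
      pos := -a.pos
      rot := -a.rot
      fin := by
        apply (a.fin.image fun q => q - a.pos).subset
        intro q hq
        exact ⟨q + a.pos, hq, by simp⟩ }

@[simp] theorem mul_lamp (a b : L d k) (q : V d) :
    (a * b).lamp q = a.lamp q + b.lamp (q - a.pos) := rfl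
@[simp] theorem mul_pos (a b : L d k) : (a * b).pos = a.pos + b.pos := rfl
@[simp] theorem mul_rot (a b : L d k) : (a * b).rot = a.rot + b.rot := rfl
@[simp] theorem one_lamp (q : V d) : (1 : L d k).lamp q = 0 := rfl
@[simp] theorem one_pos : (1 : L d k).pos = 0 := rfl
@[simp] theorem one_rot : (1 : L d k).rot = 0 := rfl
@[simp] theorem inv_lamp (a : L d k) (q : V d) : (a⁻¹).lamp q = a.lamp (q + a.pos) := rfl
@[simp] theorem inv_pos (a : L d k) : (a⁻¹).pos = -a.pos := rfl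
@[simp] theorem inv_rot (a : L d k) : (a⁻¹).rot = -a.rot := rfl

theorem ext' {a b : L d k} (h1 : ∀ q, a.lamp q = b.lamp q) (h2 : a.pos = b.pos)
    (h3 : a.rot = b.rot) : a = b := by
  ext q
  · exact h1 q
  · rw [h2]
  · exact h3

instance : Group (L d k) :=
  Group.ofLeftAxioms
    (by
      intro a b c
      apply ext'
      · intro q
        simp [add_assoc, sub_sub]
      · simp [add_assoc]
      · simp [add_assoc])
    (by
      intro a
      apply ext'
      · intro q; simp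
      · simp
      · simp)
    (by
      intro a
      apply ext'
      · intro q
        simp
        exact CharTwo.add_self_eq_zero _
      · simp
      · simp)

/-- the element `(0, p, r)` -/
def pt (p : V d) (r : ZMod k) : L d k := ⟨0, p, r, by simp⟩

/-- the toggle `(δ_0, 0, 0)` -/
def tog : L d k := ⟨fun q => if q = 0 then 1 else 0, 0, 0,
  (Set.finite_singleton (0 : V d)).subset (by
    intro q hq
    by_contra h
    simp only [Set.mem_singleton_iff] at h
    simp [Function.mem_support, h] at hq)⟩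

/-- generators of `L d k` : the toggle, the unit moves and the rotation -/
def gens (d k : ℕ) : Set (L d k) :=
  {tog} ∪ (Set.range fun i : Fin d => pt (Pi.single i 1) 0) ∪ {pt 0 1}

/-- the subgroup `Z^d × Z/k` of elements with trivial lamps -/
def M (d k : ℕ) : Subgroup (L d k) where
  carrier := {a | ∀ q, a.lamp q = 0}
  one_mem' := by intro q; simp
  mul_mem' := by
    intro a b ha hb q
    simp [ha q, hb (q - a.pos)]
  inv_mem' := by
    intro a ha q
    simp [ha (q + a.pos)]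

end L

/-- the word norm on `L d k` -/
noncomputable def LN (d k : ℕ) : L d k → ℕ := wl (L.gens d k)

/-! ## Interface for the graph product -/

/-- the endomorphism killing the `i`-th vertex group -/
noncomputable def kill {n : ℕ} {F : Type} [Group F] (i : ZMod n) : CP n F →* CP n F :=
  open Classical in
  CP.lift (fun j => if j = i then 1 else ι j) (by
    intro j g h
    by_cases h1 : j = i
    · simp [h1]
    · by_cases h2 : j + 1 = i
      · simp [h1, h2]
      · simp [h1, h2, ι_comm])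

theorem kill_ι_self {n : ℕ} {F : Type} [Group F] (i : ZMod n) (h : F) : kill i (ι i h) = 1 := by
  simp [kill]

theorem kill_ι_ne {n : ℕ} {F : Type} [Group F] {i j : ZMod n} (hij : j ≠ i) (h : F) :
    kill i (ι j h) = ι j h := by
  simp [kill, hij]

/-- The projections `pr i`, the partial norms `m i` and the tail norms `t i` of the graph product.
(`gN ℓ w = ∑ i, m i w`, `m i w = ℓ (pr i w) + t i w`.) -/
structure GP (n : ℕ) [NeZero n] (F : Type) [Group F] (ℓ : F → ℕ) where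
  pr : ZMod n → CP n F → F
  m : ZMod n → CP n F → ℕ
  t : ZMod n → CP n F → ℕ
  N_eq : ∀ w, gN ℓ w = ∑ i, m i w
  m_eq : ∀ i w, m i w = ℓ (pr i w) + t i w
  m_inv : ∀ i w, m i w⁻¹ = m i w
  m_mul : ∀ i w w', m i (w * w') ≤ m i w + m i w'
  m_ι_self : ∀ i h, m i (ι i h) = ℓ h
  m_ι_ne : ∀ i j h, j ≠ i → m i (ι j h) = 0
  m_mul_zero : ∀ i u w, m i u = 0 → m i (u * w) = m i w
  m_zero_iff : ∀ i w, m i w = 0 ↔ kill i w = w
  pr_one : ∀ i, pr i 1 = 1
  pr_ι_mul : ∀ i h w, pr i (ι i h * w) = h * pr i w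
  pr_Lam_mul : ∀ i u w, u ∈ Lam (n := n) (F := F) i → pr i (u * w) = pr i w
  pr_mul_ne : ∀ i j w s, j ≠ i → pr i (w * ι j s) = pr i w
  pr_mul_self : ∀ i w s, pr i (w * ι i s) ≠ pr i w → w ∈ St (n := n) (F := F) i
  t_ι_mul : ∀ i h w, t i (ι i h * w) = t i w
  t_Lam_mul : ∀ i u w, u ∈ Lam (n := n) (F := F) i → t i (u * w) = t i w
  sep : ∀ i a b, pr i a ≠ pr i b → m i (a⁻¹ * b) = t i a + ℓ ((pr i a)⁻¹ * pr i b) + t i b
  m_le : ∀ i a b, m i (a⁻¹ * b) ≤ t i a + ℓ ((pr i a)⁻¹ * pr i b) + t i b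
  decomp : ∀ i a b, ∃ l : List (CP n F × F),
    m i (a⁻¹ * b) = (l.map fun p => ℓ p.2).sum ∧
    ∀ (l₁ : List (CP n F × F)) (zs : CP n F × F) (l₂ : List (CP n F × F)), l = l₁ ++ zs :: l₂ →
      zs.2 ≠ 1 ∧ pr i (zs.1⁻¹ * a) = 1 ∧ pr i (zs.1⁻¹ * b) = zs.2 ∧
      t i (zs.1⁻¹ * a) = (l₁.map fun p => ℓ p.2).sum ∧
      t i (zs.1⁻¹ * b) = (l₂.map fun p => ℓ p.2).sum

/-- the projection to a tree-wall `J` -/
noncomputable def TW.pi {n : ℕ} [NeZero n] {F : Type} [Group F] {ℓ : F → ℕ} (J : TW n F)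
    (P : GP n F ℓ) (w : CP n F) : F := P.pr J.1 (J.2.out⁻¹ * w)

/-- the depth with respect to a tree-wall `J` -/
noncomputable def TW.dep {n : ℕ} [NeZero n] {F : Type} [Group F] {ℓ : F → ℕ} (J : TW n F)
    (P : GP n F ℓ) (w : CP n F) : ℕ := P.t J.1 (J.2.out⁻¹ * w)

/-- the wall `(J, h)`: a coset `z Lam i`; its sides are `π_J = h` and `π_J ≠ h` -/
def Wall {n : ℕ} [NeZero n] {F : Type} [Group F] {ℓ : F → ℕ} (P : GP n F ℓ) (J : TW n F) (h : F) :
    Set (CP n F) := {w | J.has w ∧ J.pi P w = h}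

/-- Properties of walls and tree-walls. -/
structure Walls {n : ℕ} [NeZero n] {F : Type} [Group F] {ℓ : F → ℕ} (P : GP n F ℓ) : Prop where
  norm : IsNorm (gN ℓ : CP n F → ℕ)
  gN_ι : ∀ (i : ZMod n) h, gN ℓ (ι i h) = ℓ h
  pr_lip : ∀ i a b, ℓ ((P.pr i a)⁻¹ * P.pr i b) ≤ P.m i (a⁻¹ * b)
  m_le_gN : ∀ i w, P.m i w ≤ gN ℓ w
  ι_Lam : ∀ (i : ZMod n) (h : F) (u : CP n F), u ∈ Lam i → ι i h * u = u * ι i h
  St_mem : ∀ (i : ZMod n) (w : CP n F), w ∈ St i ↔ ∃ (h : F), ∃ u ∈ Lam i, w = ι i h * u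
  Fl_mem : ∀ (i : ZMod n) (w : CP n F), w ∈ Fl i ↔ ∃ a b : F, w = ι i a * ι (i + 1) b
  Fl_eq : ∀ (i : ZMod n) (w : CP n F), (w ∈ St i ∧ w ∈ St (i + 1)) ↔ w ∈ Fl i
  gN_prod : ∀ (i : ZMod n) (h : F) (u : CP n F), u ∈ Lam i → gN ℓ (ι i h * u) = ℓ h + gN ℓ u
  m_Lam : ∀ (i j : ZMod n) (u : CP n F), u ∈ Lam i → j ≠ i - 1 → j ≠ i + 1 → P.m j u = 0
  m_St : ∀ (i j : ZMod n) (u : CP n F), u ∈ St i → j ≠ i - 1 → j ≠ i → j ≠ i + 1 → P.m j u = 0
  t_St : ∀ (i : ZMod n) (u : CP n F), u ∈ St i → P.t i u = 0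
  lemA : ∀ (i : ZMod n) (w : CP n F), (∃ a ∈ St i, ∃ b ∈ St (i + 1), w = a * b) →
    (∃ a ∈ St i, ∃ b ∈ St (i - 1), w = a * b) → w ∈ St i
  pi_step : ∀ (J : TW n F) w j s, J.pi P (w * ι j s) ≠ J.pi P w → j = J.1 ∧ J.has w
  pi_in : ∀ (J : TW n F) w s, J.has w → J.pi P (w * ι J.1 s) = J.pi P w * s
  pi_lip : ∀ (J : TW n F) a b, ℓ ((J.pi P a)⁻¹ * J.pi P b) ≤ P.m J.1 (a⁻¹ * b)
  pi_tw : ∀ i y w w', (P.pr i (y⁻¹ * w))⁻¹ * P.pr i (y⁻¹ * w') =
    ((tw i y).pi P w)⁻¹ * (tw i y).pi P w'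
  dep_tw : ∀ i y w, (tw i y).dep P w = P.t i (y⁻¹ * w)
  dep_has : ∀ (J : TW n F) w, J.has w → J.dep P w = 0
  pi_const : ∀ (J K : TW n F) a b, J ≠ K → ¬ Crs J K → K.has a → K.has b → J.pi P a = J.pi P b
  F3 : ∀ (J K : TW n F) a b, J ≠ K → ¬ Crs J K → J.has a → K.has b →
    ∀ w, J.pi P w = J.pi P b ∨ K.pi P w = K.pi P a
  pi_flat : ∀ (J : TW n F) (i : ZMod n) (y u : CP n F), J ≠ tw i y → J ≠ tw (i + 1) y → u ∈ Fl i →
    J.pi P (y * u) = J.pi P y
  cross_geo : ∀ (J : TW n F) a b, J.pi P a ≠ J.pi P b → ∃ w, J.has w ∧ J.pi P w = J.pi P a ∧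
    gN ℓ (a⁻¹ * b) = gN ℓ (a⁻¹ * w) + gN ℓ (w⁻¹ * b)
  wall_dist : ∀ (J : TW n F) h w a, w ∈ Wall P J h →
    P.m J.1 (w⁻¹ * a) = J.dep P a + ℓ (h⁻¹ * J.pi P a)
  m_sep : ∀ (J : TW n F) a b, J.pi P a ≠ J.pi P b →
    P.m J.1 (a⁻¹ * b) = J.dep P a + ℓ ((J.pi P a)⁻¹ * J.pi P b) + J.dep P b
  m_le : ∀ (J : TW n F) a b,
    P.m J.1 (a⁻¹ * b) ≤ J.dep P a + ℓ ((J.pi P a)⁻¹ * J.pi P b) + J.dep P b
  m_decomp : ∀ (i : ZMod n) a b, ∃ l : List (TW n F × ℕ),
    P.m i (a⁻¹ * b) = (l.map fun p => p.2).sum ∧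
    ∀ (l₁ : List (TW n F × ℕ)) (Jc : TW n F × ℕ) (l₂ : List (TW n F × ℕ)), l = l₁ ++ Jc :: l₂ →
      Jc.1.1 = i ∧ Jc.1.pi P a ≠ Jc.1.pi P b ∧ Jc.2 = ℓ ((Jc.1.pi P a)⁻¹ * Jc.1.pi P b) ∧
      Jc.1.dep P a = (l₁.map fun p => p.2).sum ∧ Jc.1.dep P b = (l₂.map fun p => p.2).sum
  flat_dist : ∀ (i : ZMod n) y w,
    gN ℓ ((y * ι i (P.pr i (y⁻¹ * w)) * ι (i + 1) (P.pr (i + 1) (y⁻¹ * w)))⁻¹ * w) =
      P.t i (y⁻¹ * w) + P.t (i + 1) (y⁻¹ * w) +
      ∑ k ∈ Finset.univ.filter (fun k => k ≠ i ∧ k ≠ i + 1), P.m k (y⁻¹ * w)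
  crs_ne : ∀ J K : TW n F, Crs J K → J.1 ≠ K.1
  no_triangle : ∀ J K K' : TW n F, Crs J K → Crs K K' → Crs J K' → False
  crs_flat : ∀ J K : TW n F, Crs J K → ∃ i y, (J = tw i y ∧ K = tw (i + 1) y) ∨
    (K = tw i y ∧ J = tw (i + 1) y)
  tw_eq : ∀ (i j : ZMod n) (y z : CP n F), tw i y = tw j z ↔ i = j ∧ y⁻¹ * z ∈ St (n := n) (F := F) i

end CQ
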