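import Pool.Agent.Helper28.CQ.StmtsF

set_option autoImplicit false
set_option linter.unusedSectionVars false

/-!
# Module FFa: rigidity of leaf flats, leaf planes and flats; coarse intersections
-/

namespace CQ

section Norm

variable {G : Type*} [Group G] {ℓ : G → ℕ}

theorem nd_self (h : IsNorm ℓ) (x : G) : nd ℓ x x = 0 := by
  unfold nd; rw [inv_mul_cancel]; exact (h.eq_zero 1).2 rfl

theorem nd_symm (h : IsNorm ℓ) (x y : G) : nd ℓ x y = nd ℓ y x := by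
  unfold nd; rw [← h.inv]; congr 1; group

theorem nd_tri (h : IsNorm ℓ) (x y z : G) : nd ℓ x z ≤ nd ℓ x y + nd ℓ y z := by
  unfold nd
  have := h.mul_le (x⁻¹ * y) (y⁻¹ * z)
  have e : x⁻¹ * y * (y⁻¹ * z) = x⁻¹ * z := by group
  rwa [e] at this

theorem nd_left (z x y : G) : nd ℓ (z * x) (z * y) = nd ℓ x y := by
  unfold nd; congr 1; group

end Norm

section

variable {n : ℕ} [NeZero n] {F : Type} [Group F] {ℓ : F → ℕ} {P : GP n F ℓ}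

theorem ι_comm' (i : ZMod n) (g h : F) :
    (ι (i + 1) h : CP n F) * ι i g = ι i g * ι (i + 1) h := (ι_comm i g h).symm

theorem ι_succ_mem_Lam (i : ZMod n) (h : F) : (ι (i + 1) h : CP n F) ∈ Lam i := by
  unfold Lam
  exact Subgroup.mem_sup_right ⟨h, rfl⟩

theorem gN_pair (W : Walls P) (i : ZMod n) (a b : F) :
    gN ℓ (ι i a * ι (i + 1) b : CP n F) = ℓ a + ℓ b := by
  rw [W.gN_prod i a _ (ι_succ_mem_Lam i b), W.gN_ι]

theorem succ_ne (hn : 5 ≤ n) (i : ZMod n) : i + 1 ≠ i := by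
  intro h
  have h1 : (1 : ZMod n) = 0 := by simpa using h
  have : Fact (1 < n) := ⟨by omega⟩
  exact one_ne_zero h1

theorem succ_succ_ne (hn : 5 ≤ n) (i : ZMod n) : i + 1 + 1 ≠ i := by
  intro h
  have h1 : ((2 : ℕ) : ZMod n) = 0 := by
    have : i + (1 + 1) = i := by rw [← add_assoc]; exact h
    have h2 : (1 + 1 : ZMod n) = 0 := by simpa using this
    push_cast
    rw [← h2]; norm_num
  rw [ZMod.natCast_eq_zero_iff] at h1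
  have := Nat.le_of_dvd (by norm_num) h1
  omega

theorem has_tw (i : ZMod n) (y : CP n F) : (tw i y).has y := rfl

theorem tw_has_iff (i : ZMod n) (y w : CP n F) : (tw i y).has w ↔ tw i w = tw i y := Iff.rfl

/-- value of `π` along the `i`-direction of a flat -/
theorem pi_fst (W : Walls P) (i : ZMod n) (y : CP n F) (a : F) :
    (tw i y).pi P (y * ι i a) = (tw i y).pi P y * a :=
  W.pi_in (tw i y) y a (has_tw i y)

theorem pi_ne (W : Walls P) (J : TW n F) (w : CP n F) (j : ZMod n) (s : F) (h : j ≠ J.1) :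
    J.pi P (w * ι j s) = J.pi P w := by
  by_contra hc
  exact h (W.pi_step J w j s hc).1

theorem tw_mul_ι_succ (W : Walls P) (i : ZMod n) (y : CP n F) (a : F) :
    tw (i + 1) (y * ι i a) = tw (i + 1) y := by
  rw [W.tw_eq]
  refine ⟨rfl, ?_⟩
  have : (y * ι i a)⁻¹ * y = (ι i a)⁻¹ := by group
  rw [this]
  apply Subgroup.inv_mem
  unfold St Lam
  apply Subgroup.mem_sup_right
  apply Subgroup.mem_sup_left
  exact ⟨a, by rw [add_sub_cancel_right]⟩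

theorem tw_mul_ι_self (W : Walls P) (i : ZMod n) (y : CP n F) (a : F) :
    tw i (y * ι i a) = tw i y := by
  rw [W.tw_eq]
  refine ⟨rfl, ?_⟩
  have : (y * ι i a)⁻¹ * y = (ι i a)⁻¹ := by group
  rw [this]
  apply Subgroup.inv_mem
  unfold St
  apply Subgroup.mem_sup_left
  exact ⟨a, rfl⟩

theorem tw_mul_ι_pred (W : Walls P) (i : ZMod n) (y : CP n F) (a : F) :
    tw i (y * ι (i + 1) a) = tw i y := by
  rw [W.tw_eq]
  refine ⟨rfl, ?_⟩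
  have : (y * ι (i + 1) a)⁻¹ * y = (ι (i + 1) a)⁻¹ := by group
  rw [this]
  apply Subgroup.inv_mem
  unfold St
  apply Subgroup.mem_sup_right
  exact ι_succ_mem_Lam i a

/-- coordinates in a flat -/
theorem pi_flat_fst (W : Walls P) (hn : 5 ≤ n) (i : ZMod n) (y : CP n F) (a b : F) :
    (tw i y).pi P (y * ι i a * ι (i + 1) b) = (tw i y).pi P y * a := by
  rw [pi_ne W _ _ _ _ (succ_ne hn i), pi_fst W]

theorem pi_flat_snd (W : Walls P) (hn : 5 ≤ n) (i : ZMod n) (y : CP n F) (a b : F) :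
    (tw (i + 1) y).pi P (y * ι i a * ι (i + 1) b) = (tw (i + 1) y).pi P y * b := by
  rw [mul_assoc, ι_comm, ← mul_assoc]
  rw [pi_ne W _ _ _ _ (succ_ne hn i).symm, pi_fst W]

/-- distance inside a flat -/
theorem nd_flat (W : Walls P) (i : ZMod n) (y : CP n F) (a b a' b' : F) :
    nd (gN ℓ) (y * ι i a * ι (i + 1) b) (y * ι i a' * ι (i + 1) b') =
      ℓ (a⁻¹ * a') + ℓ (b⁻¹ * b') := by
  rw [← gN_pair W i, mul_assoc, mul_assoc, nd_left]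
  unfold nd
  congr 1
  rw [mul_inv_rev, map_mul, map_mul, map_inv, map_inv]
  have h1 : (ι (i + 1) b : CP n F)⁻¹ * (ι i a)⁻¹ = (ι i a)⁻¹ * (ι (i + 1) b)⁻¹ := by
    rw [← mul_inv_rev, ← mul_inv_rev, ι_comm]
  have h2 : (ι (i + 1) b : CP n F)⁻¹ * ι i a' = ι i a' * (ι (i + 1) b)⁻¹ := by
    rw [← map_inv, ← ι_comm]
  calc (ι (i + 1) b : CP n F)⁻¹ * (ι i a)⁻¹ * (ι i a' * ι (i + 1) b')
      = (ι i a)⁻¹ * ((ι (i + 1) b)⁻¹ * ι i a') * ι (i + 1) b' := by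
        rw [h1]; group
    _ = (ι i a)⁻¹ * ι i a' * ((ι (i + 1) b)⁻¹ * ι (i + 1) b') := by
        rw [h2]; group

/-- `π_J` is constant on a flat not containing `J` -/
theorem pi_const_LF (W : Walls P) (J : TW n F) (i : ZMod n) (y : CP n F) (h1 : J ≠ tw i y)
    (h2 : J ≠ tw (i + 1) y) (a b : F) : J.pi P (y * ι i a * ι (i + 1) b) = J.pi P y := by
  rw [mul_assoc]
  exact W.pi_flat J i y _ h1 h2 ((W.Fl_mem i _).2 ⟨a, b, rfl⟩)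

theorem ℓ_unb_pi (hℓ : IsNorm ℓ) (x h : F) (S : Set F) (C : ℕ) (h1 : (1 : F) ∈ S)
    (hS : ∀ a ∈ S, ℓ ((x * a)⁻¹ * h) ≤ C) : ∀ a ∈ S, ℓ a ≤ 2 * C := by
  intro a ha
  have e1 := hS a ha
  have e2 := hS 1 h1
  have e3 := hℓ.mul_le ((x * 1)⁻¹ * h) (((x * a)⁻¹ * h)⁻¹)
  rw [hℓ.inv] at e3
  have e4 : (x * 1)⁻¹ * h * ((x * a)⁻¹ * h)⁻¹ = a := by group
  rw [e4] at e3
  omega

/-- If `LF M y i` is near `LF M' y' i'` (`M` unbounded) then the flats agree. -/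
theorem flat_of_Nb (hn : 5 ≤ n) (hℓ : IsNorm ℓ) (W : Walls P) (M M' : Subgroup F)
    (hM : ∀ r : ℕ, ∃ a ∈ M, r < ℓ a) (C : ℕ) (y y' : CP n F) (i i' : ZMod n)
    (h : Nb (nd (gN ℓ)) C (LF M y i) (LF M' y' i')) : i = i' ∧ y⁻¹ * y' ∈ Fl i := by
  have key1 : tw i y = tw i' y' ∨ tw i y = tw (i' + 1) y' := by
    by_contra hc
    push Not at hc
    obtain ⟨a, ha, hr⟩ := hM (2 * C)
    have := ℓ_unb_pi hℓ ((tw i y).pi P y) ((tw i y).pi P y') (M : Set F) C M.one_mem (by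
      intro a ha
      obtain ⟨w, ⟨a', _, b', _, rfl⟩, hw⟩ := h (y * ι i a * ι (i + 1) 1) ⟨a, ha, 1, M.one_mem, rfl⟩
      have e1 := W.pi_lip (tw i y) (y * ι i a * ι (i + 1) 1) (y' * ι i' a' * ι (i' + 1) b')
      rw [pi_flat_fst W hn, pi_const_LF W _ _ _ hc.1 hc.2] at e1
      exact (e1.trans (W.m_le_gN _ _)).trans hw) a ha
    omega
  have key2 : tw (i + 1) y = tw i' y' ∨ tw (i + 1) y = tw (i' + 1) y' := by
    by_contra hc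
    push Not at hc
    obtain ⟨a, ha, hr⟩ := hM (2 * C)
    have := ℓ_unb_pi hℓ ((tw (i + 1) y).pi P y) ((tw (i + 1) y).pi P y') (M : Set F) C M.one_mem (by
      intro a ha
      obtain ⟨w, ⟨a', _, b', _, rfl⟩, hw⟩ := h (y * ι i 1 * ι (i + 1) a) ⟨1, M.one_mem, a, ha, rfl⟩
      have e1 := W.pi_lip (tw (i + 1) y) (y * ι i 1 * ι (i + 1) a) (y' * ι i' a' * ι (i' + 1) b')
      rw [pi_flat_snd W hn, pi_const_LF W _ _ _ hc.1 hc.2] at e1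
      exact (e1.trans (W.m_le_gN _ _)).trans hw) a ha
    omega
  rcases key1 with h1 | h1
  · have h1' := (W.tw_eq _ _ _ _).1 h1
    obtain ⟨rfl, h3⟩ := h1'
    rcases key2 with h2 | h2
    · exact absurd ((W.tw_eq _ _ _ _).1 h2).1 (succ_ne hn i)
    · refine ⟨rfl, (W.Fl_eq i _).1 ⟨h3, ((W.tw_eq _ _ _ _).1 h2).2⟩⟩
  · have h1' := (W.tw_eq _ _ _ _).1 h1
    obtain ⟨rfl, h3⟩ := h1'
    rcases key2 with h2 | h2
    · exact absurd ((W.tw_eq _ _ _ _).1 h2).1 (succ_succ_ne hn i')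
    · exact absurd ((W.tw_eq _ _ _ _).1 h2).1 (succ_ne hn _)

theorem sep_contra {M : Subgroup F} {τ : F} (hM : LampLike ℓ M τ) (C : ℕ) (a : F)
    (h : ∀ m ∈ M, ∃ m' ∈ M, ℓ (m⁻¹ * a * m') ≤ C) : a ∈ M := by
  by_contra ha
  obtain ⟨B, hB⟩ := hM.sep C
  obtain ⟨m₀, hm₀, hB⟩ := hB a ha
  obtain ⟨m, hm, hr⟩ := hM.unb B
  obtain ⟨m', hm', h'⟩ := h (m₀ * m) (M.mul_mem hm₀ hm)
  have := hB (m₀ * m) (M.mul_mem hm₀ hm) m' hm' h'
  rw [inv_mul_cancel_left] at this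
  omega

theorem LF_translate (M : Subgroup F) (i : ZMod n) (y : CP n F) (a b : F) (ha : a ∈ M)
    (hb : b ∈ M) : LF M y i = LF M (y * ι i a * ι (i + 1) b) i := by
  have key : ∀ (y : CP n F) (a b : F), a ∈ M → b ∈ M →
      LF M (y * ι i a * ι (i + 1) b) i ⊆ LF M y i := by
    rintro y a b ha hb w ⟨a', ha', b', hb', rfl⟩
    refine ⟨a * a', M.mul_mem ha ha', b * b', M.mul_mem hb hb', ?_⟩
    rw [map_mul, map_mul]
    calc y * ι i a * ι (i + 1) b * ι i a' * ι (i + 1) b'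
        = y * ι i a * (ι (i + 1) b * ι i a') * ι (i + 1) b' := by group
      _ = y * ι i a * (ι i a' * ι (i + 1) b) * ι (i + 1) b' := by rw [ι_comm']
      _ = _ := by group
  apply Set.Subset.antisymm
  · have := key (y * ι i a * ι (i + 1) b) a⁻¹ b⁻¹ (M.inv_mem ha) (M.inv_mem hb)
    have e : y * ι i a * ι (i + 1) b * ι i a⁻¹ * ι (i + 1) b⁻¹ = y := by
      calc y * ι i a * ι (i + 1) b * ι i a⁻¹ * ι (i + 1) b⁻¹
          = y * ι i a * (ι (i + 1) b * ι i a⁻¹) * ι (i + 1) b⁻¹ := by group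
        _ = y * ι i a * (ι i a⁻¹ * ι (i + 1) b) * ι (i + 1) b⁻¹ := by rw [ι_comm']
        _ = y := by rw [map_inv, map_inv]; group
    rwa [e] at this
  · exact key y a b ha hb

theorem FL_eq_LF (y : CP n F) (i : ZMod n) : FL y i = LF (⊤ : Subgroup F) y i := by
  ext w
  simp [FL, LF]

end

theorem mod_RLF : S_RLF := by
  intro n _ hn F _ ℓ hℓ M τ hM P W C y y' i i' h
  obtain ⟨rfl, hy⟩ := flat_of_Nb hn hℓ W M M hM.unb C y y' i i' h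
  obtain ⟨a, b, hab⟩ := (W.Fl_mem i _).1 hy
  have hy' : y' = y * ι i a * ι (i + 1) b := by
    rw [mul_assoc, ← hab]; group
  have ha : a ∈ M := by
    apply sep_contra hM C a
    intro m hm
    obtain ⟨w, ⟨m', hm', m'', _, rfl⟩, hw⟩ := h (y * ι i m * ι (i + 1) 1) ⟨m, hm, 1, M.one_mem, rfl⟩
    refine ⟨m', hm', ?_⟩
    have e : y' * ι i m' * ι (i + 1) m'' = y * ι i (a * m') * ι (i + 1) (b * m'') := by
      rw [hy', map_mul, map_mul]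
      calc y * ι i a * ι (i + 1) b * ι i m' * ι (i + 1) m''
          = y * ι i a * (ι (i + 1) b * ι i m') * ι (i + 1) m'' := by group
        _ = y * ι i a * (ι i m' * ι (i + 1) b) * ι (i + 1) m'' := by rw [ι_comm']
        _ = _ := by group
    rw [e, nd_flat W, ← mul_assoc] at hw
    omega
  have hb : b ∈ M := by
    apply sep_contra hM C b
    intro m hm
    obtain ⟨w, ⟨m', _, m'', hm'', rfl⟩, hw⟩ := h (y * ι i 1 * ι (i + 1) m) ⟨1, M.one_mem, m, hm, rfl⟩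
    refine ⟨m'', hm'', ?_⟩
    have e : y' * ι i m' * ι (i + 1) m'' = y * ι i (a * m') * ι (i + 1) (b * m'') := by
      rw [hy', map_mul, map_mul]
      calc y * ι i a * ι (i + 1) b * ι i m' * ι (i + 1) m''
          = y * ι i a * (ι (i + 1) b * ι i m') * ι (i + 1) m'' := by group
        _ = y * ι i a * (ι i m' * ι (i + 1) b) * ι (i + 1) m'' := by rw [ι_comm']
        _ = _ := by group
    rw [e, nd_flat W, ← mul_assoc m⁻¹] at hw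
    omega
  refine ⟨rfl, ⟨a, ha, b, hb, hy'⟩, ?_⟩
  rw [hy']
  exact LF_translate M i y a b ha hb

theorem mod_RPL : S_RPL := by
  intro n _ hn F _ ℓ hℓ M τ hM P W C y y' i i' h
  have key : tw i y = tw i' y' := by
    by_contra hc
    obtain ⟨a, ha, hr⟩ := hM.unb (2 * C)
    have := ℓ_unb_pi hℓ ((tw i y).pi P y) ((tw i y).pi P y') (M : Set F) C M.one_mem (by
      intro a ha
      obtain ⟨w, ⟨a', _, rfl⟩, hw⟩ := h (y * ι i a) ⟨a, ha, rfl⟩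
      have e1 := W.pi_lip (tw i y) (y * ι i a) (y' * ι i' a')
      have e2 : (tw i y).pi P (y' * ι i' a') = (tw i y).pi P y' := by
        by_contra hne
        obtain ⟨h1, h2⟩ := W.pi_step _ _ _ _ hne
        apply hc
        subst h1
        exact h2.symm
      rw [pi_fst W, e2] at e1
      exact (e1.trans (W.m_le_gN _ _)).trans hw) a ha
    omega
  obtain ⟨rfl, hy⟩ := (W.tw_eq _ _ _ _).1 key
  obtain ⟨b, u, hu, hbu⟩ := (W.St_mem i _).1 hy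
  have hy' : y' = y * ι i b * u := by rw [mul_assoc, ← hbu]; group
  have dist : ∀ a a' : F, nd (gN ℓ) (y * ι i a) (y' * ι i a') = ℓ (a⁻¹ * b * a') + gN ℓ u := by
    intro a a'
    rw [← W.gN_prod i _ u hu, hy']
    have e : y * ι i b * u * ι i a' = y * (ι i b * ι i a' * u) := by
      rw [mul_assoc (y * ι i b), ← W.ι_Lam i a' u hu]; group
    rw [e, nd_left]
    unfold nd
    congr 1
    rw [map_mul, map_mul, map_inv]
    group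
  refine ⟨rfl, b, ?_, u, hu, hy', ?_⟩
  · apply sep_contra hM C b
    intro m hm
    obtain ⟨w, ⟨m', hm', rfl⟩, hw⟩ := h (y * ι i m) ⟨m, hm, rfl⟩
    rw [dist] at hw
    exact ⟨m', hm', by omega⟩
  · obtain ⟨w, ⟨m', hm', rfl⟩, hw⟩ := h (y * ι i 1) ⟨1, M.one_mem, rfl⟩
    rw [dist] at hw
    omega

theorem mod_RFL : S_RFL := by
  intro n _ hn F _ ℓ hℓ hunb P W C y y' i i' h
  rw [FL_eq_LF, FL_eq_LF] at h
  obtain ⟨rfl, hy⟩ := flat_of_Nb hn hℓ W ⊤ ⊤ (fun r => by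
    obtain ⟨a, ha⟩ := hunb r
    exact ⟨a, Subgroup.mem_top a, ha⟩) C y y' i i' h
  refine ⟨rfl, hy, ?_⟩
  obtain ⟨a, b, hab⟩ := (W.Fl_mem i _).1 hy
  have hy' : y' = y * ι i a * ι (i + 1) b := by
    rw [mul_assoc, ← hab]; group
  rw [FL_eq_LF, FL_eq_LF, hy']
  exact LF_translate ⊤ i y a b (Subgroup.mem_top a) (Subgroup.mem_top b)

theorem mod_TWOSIDED : S_TWOSIDED := by
  intro X Y dX dY sX tX sY tY P₁ P₂ K C f g hq hf hg hrev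
  obtain ⟨C₂, hC₂⟩ := hrev (K + K * C + K + C)
  refine ⟨K + K * (C + C₂) + K, ?_⟩
  intro A hA B hB hAB b hb
  obtain ⟨A', hA', hgB⟩ := hg B hB
  have h1 : Nb dX (K + K * C + K + C) A A' := by
    intro a ha
    obtain ⟨b', hb', hab⟩ := hAB (f a) ⟨a, ha, rfl⟩
    obtain ⟨a', ha', hba⟩ := hgB (g b') ⟨b', hb', rfl⟩
    refine ⟨a', ha', ?_⟩
    have e1 := tX a (g (f a)) a'
    have e2 := tX (g (f a)) (g b') a'
    have e3 := hq.gf a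
    have e4 := hq.g_le (f a) b'
    have e5 : K * dY (f a) b' ≤ K * C := Nat.mul_le_mul_left _ hab
    omega
  have h2 := hC₂ A hA A' hA' h1
  obtain ⟨a', ha', hba⟩ := hgB (g b) ⟨b, hb, rfl⟩
  obtain ⟨a, ha, haa⟩ := h2 a' ha'
  refine ⟨f a, ⟨a, ha, rfl⟩, ?_⟩
  have e1 := tY b (f (g b)) (f a)
  have e2 := hq.fg b
  have e3 := hq.f_le (g b) a
  have e4 := tX (g b) a' a
  have e5 : K * dX (g b) a ≤ K * (C + C₂) := Nat.mul_le_mul_left _ (by omega)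
  omega

theorem mod_INT : S_INT := by
  intro n _ hn F _ ℓ hℓ M τ hM P W r
  obtain ⟨B, hB⟩ := hM.sep (2 * r)
  refine ⟨5 * r + B, ?_⟩
  intro y₁ y₂ i₁ i₂ hne
  -- the two flats
  by_cases hE : ∃ w, (∃ p ∈ LF M y₁ i₁, nd (gN ℓ) w p ≤ r) ∧ (∃ p ∈ LF M y₂ i₂, nd (gN ℓ) w p ≤ r)
  swap
  · push Not at hE
    refine ⟨y₁, i₁, ?_⟩
    intro w ⟨p, hp, hpr⟩ ⟨p', hp', hpr'⟩
    exact absurd hpr' (not_le.2 (hE w ⟨p, hp, hpr⟩ p' hp'))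
  obtain ⟨w₀, ⟨_, ⟨a₀, ha₀, b₀, hb₀, rfl⟩, hw₀⟩, ⟨_, ⟨a₀', ha₀', b₀', hb₀', rfl⟩, hw₀'⟩⟩ := hE
  have tri : ∀ {w p p' : CP n F}, nd (gN ℓ) w p ≤ r → nd (gN ℓ) w p' ≤ r →
      nd (gN ℓ) p p' ≤ 2 * r := by
    intro w p p' h1 h2
    have := nd_tri W.norm p w p'
    rw [nd_symm W.norm p w] at this
    omega
  by_cases h2 : tw (i₁ + 1) y₁ ≠ tw i₂ y₂ ∧ tw (i₁ + 1) y₁ ≠ tw (i₂ + 1) y₂
  · -- second coordinate bounded
    refine ⟨y₁ * ι (i₁ + 1) b₀, i₁, ?_⟩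
    have key : ∀ a b a' b' : F, nd (gN ℓ) (y₁ * ι i₁ a * ι (i₁ + 1) b)
        (y₂ * ι i₂ a' * ι (i₂ + 1) b') ≤ 2 * r →
        ℓ (((tw (i₁ + 1) y₁).pi P y₁ * b)⁻¹ * (tw (i₁ + 1) y₁).pi P y₂) ≤ 2 * r := by
      intro a b a' b' h
      have e1 := W.pi_lip (tw (i₁ + 1) y₁) (y₁ * ι i₁ a * ι (i₁ + 1) b)
        (y₂ * ι i₂ a' * ι (i₂ + 1) b')
      rw [pi_flat_snd W hn, pi_const_LF W _ _ _ h2.1 h2.2] at e1
      exact (e1.trans (W.m_le_gN _ _)).trans h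
    have k0 := key _ _ _ _ (tri hw₀ hw₀')
    rintro w ⟨_, ⟨a, ha, b, hb, rfl⟩, hw⟩ ⟨_, ⟨a', ha', b', hb', rfl⟩, hw'⟩
    have k1 := key _ _ _ _ (tri hw hw')
    refine ⟨y₁ * ι (i₁ + 1) b₀ * ι i₁ a, ⟨a, ha, rfl⟩, ?_⟩
    have e : y₁ * ι (i₁ + 1) b₀ * ι i₁ a = y₁ * ι i₁ a * ι (i₁ + 1) b₀ := by
      rw [mul_assoc, ι_comm', ← mul_assoc]
    rw [e]
    have e2 := nd_tri W.norm w (y₁ * ι i₁ a * ι (i₁ + 1) b) (y₁ * ι i₁ a * ι (i₁ + 1) b₀)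
    rw [nd_flat W] at e2
    have e3 : ℓ (a⁻¹ * a) = 0 := by rw [inv_mul_cancel]; exact (hℓ.eq_zero 1).2 rfl
    have e4 := hℓ.mul_le (((tw (i₁ + 1) y₁).pi P y₁ * b)⁻¹ * (tw (i₁ + 1) y₁).pi P y₂)
      ((((tw (i₁ + 1) y₁).pi P y₁ * b₀)⁻¹ * (tw (i₁ + 1) y₁).pi P y₂)⁻¹)
    rw [hℓ.inv] at e4
    have e5 : ((tw (i₁ + 1) y₁).pi P y₁ * b)⁻¹ * (tw (i₁ + 1) y₁).pi P y₂ *
      (((tw (i₁ + 1) y₁).pi P y₁ * b₀)⁻¹ * (tw (i₁ + 1) y₁).pi P y₂)⁻¹ = b⁻¹ * b₀ := by group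
    rw [e5] at e4
    omega
  by_cases h1 : tw i₁ y₁ ≠ tw i₂ y₂ ∧ tw i₁ y₁ ≠ tw (i₂ + 1) y₂
  · -- first coordinate bounded
    refine ⟨y₁ * ι i₁ a₀, i₁ + 1, ?_⟩
    have key : ∀ a b a' b' : F, nd (gN ℓ) (y₁ * ι i₁ a * ι (i₁ + 1) b)
        (y₂ * ι i₂ a' * ι (i₂ + 1) b') ≤ 2 * r →
        ℓ (((tw i₁ y₁).pi P y₁ * a)⁻¹ * (tw i₁ y₁).pi P y₂) ≤ 2 * r := by
      intro a b a' b' h
      have e1 := W.pi_lip (tw i₁ y₁) (y₁ * ι i₁ a * ι (i₁ + 1) b)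
        (y₂ * ι i₂ a' * ι (i₂ + 1) b')
      rw [pi_flat_fst W hn, pi_const_LF W _ _ _ h1.1 h1.2] at e1
      exact (e1.trans (W.m_le_gN _ _)).trans h
    have k0 := key _ _ _ _ (tri hw₀ hw₀')
    rintro w ⟨_, ⟨a, ha, b, hb, rfl⟩, hw⟩ ⟨_, ⟨a', ha', b', hb', rfl⟩, hw'⟩
    have k1 := key _ _ _ _ (tri hw hw')
    refine ⟨y₁ * ι i₁ a₀ * ι (i₁ + 1) b, ⟨b, hb, rfl⟩, ?_⟩
    have e2 := nd_tri W.norm w (y₁ * ι i₁ a * ι (i₁ + 1) b) (y₁ * ι i₁ a₀ * ι (i₁ + 1) b)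
    rw [nd_flat W] at e2
    have e3 : ℓ (b⁻¹ * b) = 0 := by rw [inv_mul_cancel]; exact (hℓ.eq_zero 1).2 rfl
    have e4 := hℓ.mul_le (((tw i₁ y₁).pi P y₁ * a)⁻¹ * (tw i₁ y₁).pi P y₂)
      ((((tw i₁ y₁).pi P y₁ * a₀)⁻¹ * (tw i₁ y₁).pi P y₂)⁻¹)
    rw [hℓ.inv] at e4
    have e5 : ((tw i₁ y₁).pi P y₁ * a)⁻¹ * (tw i₁ y₁).pi P y₂ *
      (((tw i₁ y₁).pi P y₁ * a₀)⁻¹ * (tw i₁ y₁).pi P y₂)⁻¹ = a⁻¹ * a₀ := by group
    rw [e5] at e4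
    omega
  -- same flat
  have hflat : i₁ = i₂ ∧ y₁⁻¹ * y₂ ∈ Fl i₁ := by
    rw [not_and_or, not_not, not_not] at h1 h2
    rcases h1 with h1 | h1
    · obtain ⟨rfl, h3⟩ := (W.tw_eq _ _ _ _).1 h1
      rcases h2 with h2 | h2
      · exact absurd ((W.tw_eq _ _ _ _).1 h2).1 (succ_ne hn _)
      · exact ⟨rfl, (W.Fl_eq _ _).1 ⟨h3, ((W.tw_eq _ _ _ _).1 h2).2⟩⟩
    · obtain ⟨rfl, h3⟩ := (W.tw_eq _ _ _ _).1 h1
      rcases h2 with h2 | h2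
      · exact absurd ((W.tw_eq _ _ _ _).1 h2).1 (succ_succ_ne hn _)
      · exact absurd ((W.tw_eq _ _ _ _).1 h2).1 (succ_ne hn _)
  obtain ⟨rfl, hy⟩ := hflat
  obtain ⟨a, b, hab⟩ := (W.Fl_mem _ _).1 hy
  have hy' : y₂ = y₁ * ι i₁ a * ι (i₁ + 1) b := by
    rw [mul_assoc, ← hab]; group
  have comp : ∀ m' m'' : F, y₂ * ι i₁ m' * ι (i₁ + 1) m'' =
      y₁ * ι i₁ (a * m') * ι (i₁ + 1) (b * m'') := by
    intro m' m''
    rw [hy', map_mul, map_mul]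
    calc y₁ * ι i₁ a * ι (i₁ + 1) b * ι i₁ m' * ι (i₁ + 1) m''
        = y₁ * ι i₁ a * (ι (i₁ + 1) b * ι i₁ m') * ι (i₁ + 1) m'' := by group
      _ = y₁ * ι i₁ a * (ι i₁ m' * ι (i₁ + 1) b) * ι (i₁ + 1) m'' := by rw [ι_comm']
      _ = _ := by group
  by_cases ha : a ∈ M
  · have hb : b ∉ M := by
      intro hb
      apply hne
      rw [hy']
      exact LF_translate M _ _ _ _ ha hb
    obtain ⟨m₀, hm₀, hB'⟩ := hB b hb
    refine ⟨y₁ * ι (i₁ + 1) m₀, i₁, ?_⟩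
    rintro w ⟨_, ⟨a1, ha1, b1, hb1, rfl⟩, hw⟩ ⟨_, ⟨a2, ha2, b2, hb2, rfl⟩, hw'⟩
    have k := tri hw hw'
    rw [comp, nd_flat W] at k
    have k2 := hB' b1 hb1 b2 hb2 (by rw [mul_assoc]; omega)
    refine ⟨y₁ * ι (i₁ + 1) m₀ * ι i₁ a1, ⟨a1, ha1, rfl⟩, ?_⟩
    have e : y₁ * ι (i₁ + 1) m₀ * ι i₁ a1 = y₁ * ι i₁ a1 * ι (i₁ + 1) m₀ := by
      rw [mul_assoc, ι_comm', ← mul_assoc]
    rw [e]
    have e2 := nd_tri W.norm w (y₁ * ι i₁ a1 * ι (i₁ + 1) b1) (y₁ * ι i₁ a1 * ι (i₁ + 1) m₀)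
    rw [nd_flat W] at e2
    have e3 : ℓ (a1⁻¹ * a1) = 0 := by rw [inv_mul_cancel]; exact (hℓ.eq_zero 1).2 rfl
    have e4 : ℓ (b1⁻¹ * m₀) = ℓ (m₀⁻¹ * b1) := by rw [← hℓ.inv]; congr 1; group
    omega
  · obtain ⟨m₀, hm₀, hB'⟩ := hB a ha
    refine ⟨y₁ * ι i₁ m₀, i₁ + 1, ?_⟩
    rintro w ⟨_, ⟨a1, ha1, b1, hb1, rfl⟩, hw⟩ ⟨_, ⟨a2, ha2, b2, hb2, rfl⟩, hw'⟩
    have k := tri hw hw'
    rw [comp, nd_flat W] at k
    have k2 := hB' a1 ha1 a2 ha2 (by rw [mul_assoc]; omega)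
    refine ⟨y₁ * ι i₁ m₀ * ι (i₁ + 1) b1, ⟨b1, hb1, rfl⟩, ?_⟩
    have e2 := nd_tri W.norm w (y₁ * ι i₁ a1 * ι (i₁ + 1) b1) (y₁ * ι i₁ m₀ * ι (i₁ + 1) b1)
    rw [nd_flat W] at e2
    have e3 : ℓ (b1⁻¹ * b1) = 0 := by rw [inv_mul_cancel]; exact (hℓ.eq_zero 1).2 rfl
    have e4 : ℓ (a1⁻¹ * m₀) = ℓ (m₀⁻¹ * a1) := by rw [← hℓ.inv]; congr 1; group
    omega

end CQ
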