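import Pool.Agent.Helper28.CQ.FFa

set_option autoImplicit false
set_option linter.unusedSectionVars false

/-!
# Module FFb: leaf planes, types of leaf flats, flats to flats
-/

namespace CQ

section

variable {n : ℕ} [NeZero n] {F : Type} [Group F] {ℓ : F → ℕ} {P : GP n F ℓ}

theorem natCast_zmod_ne (hn : 5 ≤ n) (c : ℕ) (h0 : 0 < c) (h1 : c < 5) : (c : ZMod n) ≠ 0 := by
  intro h
  rw [ZMod.natCast_eq_zero_iff] at h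
  have := Nat.le_of_dvd h0 h
  omega

theorem LF_ne (W : Walls P) (hn : 5 ≤ n) (M : Subgroup F) {τ : F} (hτ : τ ∉ M) (y : CP n F)
    (i : ZMod n) : LF M y i ≠ LF M (y * ι (i + 1) τ) i := by
  intro h
  have h1 : y * ι (i + 1) τ ∈ LF M (y * ι (i + 1) τ) i :=
    ⟨1, M.one_mem, 1, M.one_mem, by simp⟩
  rw [← h] at h1
  obtain ⟨a, _, b, hb, hab⟩ := h1
  have e1 := pi_flat_snd (P := P) W hn i y 1 τ
  have e2 := pi_flat_snd (P := P) W hn i y a b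
  rw [← hab] at e2
  rw [map_one, mul_one, e2] at e1
  have := mul_left_cancel e1
  exact hτ (this ▸ hb)

theorem gN_Lam (W : Walls P) (hn : 5 ≤ n) (i : ZMod n) (u : CP n F) (hu : u ∈ Lam i) :
    gN ℓ u = P.m (i - 1) u + P.m (i + 1) u := by
  rw [P.N_eq]
  have hne : i - 1 ≠ i + 1 := by
    intro h
    apply natCast_zmod_ne hn 2 (by norm_num) (by norm_num)
    push_cast
    linear_combination -h
  rw [Finset.sum_eq_add (i - 1) (i + 1) hne]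
  · intro c _ hc
    exact W.m_Lam i c u hu hc.1 hc.2
  · intro h; exact absurd (Finset.mem_univ _) h
  · intro h; exact absurd (Finset.mem_univ _) h

theorem m_two_le (hn : 5 ≤ n) (P : GP n F ℓ) (i : ZMod n) (w : CP n F) :
    P.m (i - 1) w + P.m (i + 1) w ≤ gN ℓ w := by
  rw [P.N_eq]
  have hne : i - 1 ≠ i + 1 := by
    intro h
    apply natCast_zmod_ne hn 2 (by norm_num) (by norm_num)
    push_cast
    linear_combination -h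
  have h := Finset.sum_pair (f := fun j => P.m j w) hne
  rw [← h]
  exact Finset.sum_le_sum_of_subset (Finset.subset_univ _)

/-- walls and planes: depth bound -/
theorem plane_wall (W : Walls P) (hn : 5 ≤ n) (hℓ : IsNorm ℓ) (J : TW n F) (h₀ : F)
    (w₀ : CP n F) (hw₀ : w₀ ∈ Wall P J h₀) (i : ZMod n) (hadj : i = J.1 + 1 ∨ J.1 = i + 1)
    (b a : F) (u : CP n F) (hu : u ∈ Lam i) (e : CP n F) (he : e ∈ Wall P J h₀) (T : ℕ)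
    (hd : nd (gN ℓ) (w₀ * ι i b * u * ι i a) e ≤ T) : gN ℓ u ≤ T := by
  have hv : w₀⁻¹ * e ∈ St (n := n) (F := F) J.1 := by
    have h1 : tw J.1 w₀ = tw J.1 e := by
      rw [show tw J.1 w₀ = J from hw₀.1, show tw J.1 e = J from he.1]
    exact ((W.tw_eq _ _ _ _).1 h1).2
  have hvj : P.m J.1 (w₀⁻¹ * e) = 0 := by
    rw [W.wall_dist J h₀ w₀ e hw₀, W.dep_has J e he.1, he.2, inv_mul_cancel,
      (hℓ.eq_zero 1).2 rfl]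
  have hvm : P.m (i - 1) (w₀⁻¹ * e) = 0 ∧ P.m (i + 1) (w₀⁻¹ * e) = 0 := by
    have n1 := natCast_zmod_ne hn 1 (by norm_num) (by norm_num)
    have n2 := natCast_zmod_ne hn 2 (by norm_num) (by norm_num)
    have n3 := natCast_zmod_ne hn 3 (by norm_num) (by norm_num)
    push_cast at n1 n2 n3
    rcases hadj with h | h
    · constructor
      · rw [h, add_sub_cancel_right]; exact hvj
      · apply W.m_St J.1 _ _ hv
        · intro h'; apply n3; rw [h] at h'; linear_combination h'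
        · intro h'; apply n2; rw [h] at h'; linear_combination h'
        · intro h'; apply n1; rw [h] at h'; linear_combination h'
    · constructor
      · apply W.m_St J.1 _ _ hv
        · intro h'; apply n1; rw [h] at h'; linear_combination -h'
        · intro h'; apply n2; rw [h] at h'; linear_combination -h'
        · intro h'; apply n3; rw [h] at h'; linear_combination -h'
      · rw [← h]; exact hvj
  have hk : ∀ k : ZMod n, k ≠ i → P.m k (w₀⁻¹ * e) = 0 →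
      P.m k (e⁻¹ * (w₀ * ι i b * u * ι i a)) = P.m k u := by
    intro k hki hk0
    have e1 : e⁻¹ * (w₀ * ι i b * u * ι i a) = (w₀⁻¹ * e)⁻¹ * (ι i (b * a) * u) := by
      have : u * ι i a = ι i a * u := (W.ι_Lam i a u hu).symm
      rw [map_mul]
      calc e⁻¹ * (w₀ * ι i b * u * ι i a) = e⁻¹ * w₀ * ι i b * (u * ι i a) := by group
        _ = e⁻¹ * w₀ * ι i b * (ι i a * u) := by rw [this]
        _ = _ := by group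
    rw [e1, P.m_mul_zero k _ _ (by rw [P.m_inv]; exact hk0),
      P.m_mul_zero k _ _ (P.m_ι_ne k i _ hki.symm)]
  have hne1 : i - 1 ≠ i := by
    intro h
    apply natCast_zmod_ne hn 1 (by norm_num) (by norm_num)
    push_cast
    linear_combination -h
  rw [gN_Lam W hn i u hu, ← hk _ hne1 hvm.1, ← hk _ (succ_ne hn i) hvm.2]
  refine (m_two_le hn P i _).trans ?_
  have : nd (gN ℓ) e (w₀ * ι i b * u * ι i a) ≤ T := by rwa [nd_symm W.norm]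
  exact this

/-- a leaf plane near a wall crosses it -/
theorem plane_cross (W : Walls P) (hℓ : IsNorm ℓ) (M : Subgroup F)
    (hM : ∀ r : ℕ, ∃ a ∈ M, r < ℓ a) (J : TW n F) (h₀ : F) (y : CP n F) (i : ZMod n) (T : ℕ)
    (h : Nb (nd (gN ℓ)) T (PL M y i) (Wall P J h₀)) :
    ∃ w₀ ∈ Wall P J h₀, tw i w₀ = tw i y ∧ (i = J.1 + 1 ∨ J.1 = i + 1) := by
  have hcrs : Crs (tw i y) J := by
    by_contra hc
    -- `π` is constant on the wall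
    have hconst : ∃ c : F, ∀ e ∈ Wall P J h₀, (tw i y).pi P e = c := by
      by_cases hJ : tw i y = J
      · refine ⟨h₀, fun e he => ?_⟩
        rw [hJ]; exact he.2
      · obtain ⟨e₀, he₀, _⟩ := h (y * ι i 1) ⟨1, M.one_mem, rfl⟩
        refine ⟨(tw i y).pi P e₀, fun e he => ?_⟩
        exact W.pi_const (tw i y) J e e₀ hJ hc he.1 he₀.1
    obtain ⟨c, hc⟩ := hconst
    obtain ⟨a, ha, hr⟩ := hM (2 * T)
    have := ℓ_unb_pi hℓ ((tw i y).pi P y) c (M : Set F) T M.one_mem (by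
      intro a ha
      obtain ⟨e, he, hd⟩ := h (y * ι i a) ⟨a, ha, rfl⟩
      have e1 := W.pi_lip (tw i y) (y * ι i a) e
      rw [pi_fst W, hc e he] at e1
      exact (e1.trans (W.m_le_gN _ _)).trans hd) a ha
    omega
  obtain ⟨hadj, w, hw1, hw2⟩ := hcrs
  refine ⟨w * ι J.1 ((J.pi P w)⁻¹ * h₀), ⟨?_, ?_⟩, ?_, hadj⟩
  · show tw J.1 _ = J
    rw [tw_mul_ι_self W]; exact hw2
  · rw [W.pi_in J w _ hw2]; group
  · rcases hadj with h' | h'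
    · have h'' : i = J.1 + 1 := h'
      subst h''
      rw [tw_mul_ι_succ W]; exact hw1
    · have h'' : J.1 = i + 1 := h'
      rw [h'', tw_mul_ι_pred W]; exact hw1

end

section TwoGroups

variable {n : ℕ} [NeZero n] {F₁ F₂ : Type} [Group F₁] [Group F₂] {ℓ₁ : F₁ → ℕ} {ℓ₂ : F₂ → ℕ}
  {P₁ : GP n F₁ ℓ₁} {P₂ : GP n F₂ ℓ₂} {M₁ : Subgroup F₁} {M₂ : Subgroup F₂} {τ₁ : F₁} {τ₂ : F₂}
  {K C : ℕ} {f : CP n F₁ → CP n F₂} {g : CP n F₂ → CP n F₁}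

/-- leaf flats: coarse density -/
theorem LF_dense (hn : 5 ≤ n) (h₁ : IsNorm ℓ₁) (W₁ : Walls P₁) (W₂ : Walls P₂)
    (hM₁ : LampLike ℓ₁ M₁ τ₁)
    (hq : QIP (nd (gN ℓ₁)) (nd (gN ℓ₂)) K f g)
    (hf : ∀ y i, ∃ y' i', Nb (nd (gN ℓ₂)) C (f '' LF M₁ y i) (LF M₂ y' i'))
    (hg : ∀ y i, ∃ y' i', Nb (nd (gN ℓ₁)) C (g '' LF M₂ y i) (LF M₁ y' i')) :
    ∃ C₃ : ℕ, ∀ y i y' i', Nb (nd (gN ℓ₂)) C (f '' LF M₁ y i) (LF M₂ y' i') →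
      Nb (nd (gN ℓ₂)) C₃ (LF M₂ y' i') (f '' LF M₁ y i) := by
  obtain ⟨C₃, hC₃⟩ := mod_TWOSIDED (CP n F₁) (CP n F₂) (nd (gN ℓ₁)) (nd (gN ℓ₂))
    (nd_symm W₁.norm) (nd_tri W₁.norm) (nd_symm W₂.norm) (nd_tri W₂.norm)
    {A | ∃ y i, A = LF M₁ y i} {B | ∃ y i, B = LF M₂ y i} K C f g hq
    (by
      rintro _ ⟨y, i, rfl⟩
      obtain ⟨y', i', h⟩ := hf y i
      exact ⟨_, ⟨y', i', rfl⟩, h⟩)
    (by
      rintro _ ⟨y, i, rfl⟩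
      obtain ⟨y', i', h⟩ := hg y i
      exact ⟨_, ⟨y', i', rfl⟩, h⟩)
    (by
      intro C₁
      refine ⟨0, ?_⟩
      rintro _ ⟨y, i, rfl⟩ _ ⟨y', i', rfl⟩ h
      rw [(mod_RLF n hn F₁ ℓ₁ h₁ M₁ τ₁ hM₁ P₁ W₁ C₁ y y' i i' h).2.2]
      intro a ha
      exact ⟨a, ha, (nd_self W₁.norm a).le⟩)
  exact ⟨C₃, fun y i y' i' h => hC₃ _ ⟨y, i, rfl⟩ _ ⟨y', i', rfl⟩ h⟩

/-- pulling back closeness -/
theorem nd_pull (W₁ : Walls P₁)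
    (hq : QIP (nd (gN ℓ₁)) (nd (gN ℓ₂)) K f g) (a b : CP n F₁) (S : ℕ)
    (h : nd (gN ℓ₂) (f a) (f b) ≤ S) : nd (gN ℓ₁) a b ≤ 3 * K + K * S := by
  have e1 := nd_tri W₁.norm a (g (f a)) b
  have e2 := nd_tri W₁.norm (g (f a)) (g (f b)) b
  have e3 := hq.gf a
  have e4 := hq.gf b
  rw [nd_symm W₁.norm] at e4
  have e5 := hq.g_le (f a) (f b)
  have e6 : K * nd (gN ℓ₂) (f a) (f b) ≤ K * S := Nat.mul_le_mul_left _ h
  omega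

/-- leaf planes go near leaf planes -/
theorem PL_img (hn : 5 ≤ n) (h₁ : IsNorm ℓ₁) (h₂ : IsNorm ℓ₂) (W₁ : Walls P₁) (W₂ : Walls P₂)
    (hM₁ : LampLike ℓ₁ M₁ τ₁) (hM₂ : LampLike ℓ₂ M₂ τ₂)
    (hq : QIP (nd (gN ℓ₁)) (nd (gN ℓ₂)) K f g)
    (hf : ∀ y i, ∃ y' i', Nb (nd (gN ℓ₂)) C (f '' LF M₁ y i) (LF M₂ y' i'))
    (hg : ∀ y i, ∃ y' i', Nb (nd (gN ℓ₁)) C (g '' LF M₂ y i) (LF M₁ y' i')) :
    ∃ Ca : ℕ, ∀ y i, ∃ y' i', Nb (nd (gN ℓ₂)) Ca (f '' PL M₁ y i) (PL M₂ y' i') := by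
  obtain ⟨C₃, hC₃⟩ := LF_dense hn h₁ W₁ W₂ hM₁ hq hf hg
  obtain ⟨r', hr'⟩ := mod_INT n hn F₂ ℓ₂ h₂ M₂ τ₂ hM₂ P₂ W₂ (C + 2 * K)
  refine ⟨r', fun y i => ?_⟩
  obtain ⟨y1, i1, H1⟩ := hf y i
  obtain ⟨y2, i2, H2⟩ := hf (y * ι (i + 1) τ₁) i
  have hne : LF M₂ y1 i1 ≠ LF M₂ y2 i2 := by
    intro he
    have H2' := hC₃ _ _ _ _ H2
    have H3 : Nb (nd (gN ℓ₁)) (3 * K + K * (C + C₃)) (LF M₁ y i)
        (LF M₁ (y * ι (i + 1) τ₁) i) := by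
      intro a ha
      obtain ⟨q, hq1, hq2⟩ := H1 (f a) ⟨a, ha, rfl⟩
      rw [he] at hq1
      obtain ⟨_, ⟨a', ha', rfl⟩, hq3⟩ := H2' q hq1
      refine ⟨a', ha', nd_pull W₁ hq _ _ _ ?_⟩
      exact (nd_tri W₂.norm _ q _).trans (by omega)
    exact LF_ne W₁ hn M₁ hM₁.τ_notMem y i
      (mod_RLF n hn F₁ ℓ₁ h₁ M₁ τ₁ hM₁ P₁ W₁ _ _ _ _ _ H3).2.2
  obtain ⟨y3, i3, H3⟩ := hr' y1 y2 i1 i2 hne
  refine ⟨y3, i3, ?_⟩
  rintro _ ⟨_, ⟨a, ha, rfl⟩, rfl⟩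
  apply H3 (f (y * ι i a))
  · obtain ⟨q, hq1, hq2⟩ := H1 (f (y * ι i a)) ⟨_, ⟨a, ha, 1, M₁.one_mem, by simp⟩, rfl⟩
    exact ⟨q, hq1, by omega⟩
  · obtain ⟨q, hq1, hq2⟩ := H2 (f (y * ι i a * ι (i + 1) τ₁)) ⟨_, ⟨a, ha, 1, M₁.one_mem, by
      rw [map_one, mul_one, mul_assoc, mul_assoc, ι_comm' i a τ₁]⟩, rfl⟩
    refine ⟨q, hq1, ?_⟩
    have e1 := nd_tri W₂.norm (f (y * ι i a)) (f (y * ι i a * ι (i + 1) τ₁)) q
    have e2 := hq.f_le (y * ι i a) (y * ι i a * ι (i + 1) τ₁)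
    have e3 : nd (gN ℓ₁) (y * ι i a) (y * ι i a * ι (i + 1) τ₁) ≤ 1 := by
      unfold nd
      rw [inv_mul_cancel_left, W₁.gN_ι]
      exact hM₁.τ_le
    have e4 : K * nd (gN ℓ₁) (y * ι i a) (y * ι i a * ι (i + 1) τ₁) ≤ K * 1 :=
      Nat.mul_le_mul_left _ e3
    omega

/-- leaf planes: coarse density -/
theorem PL_dense (hn : 5 ≤ n) (h₁ : IsNorm ℓ₁) (W₁ : Walls P₁) (W₂ : Walls P₂)
    (hM₁ : LampLike ℓ₁ M₁ τ₁) {Ca : ℕ}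
    (hq : QIP (nd (gN ℓ₁)) (nd (gN ℓ₂)) K f g)
    (hf : ∀ y i, ∃ y' i', Nb (nd (gN ℓ₂)) Ca (f '' PL M₁ y i) (PL M₂ y' i'))
    (hg : ∀ y i, ∃ y' i', Nb (nd (gN ℓ₁)) Ca (g '' PL M₂ y i) (PL M₁ y' i')) :
    ∃ C₃ : ℕ, ∀ y i y' i', Nb (nd (gN ℓ₂)) Ca (f '' PL M₁ y i) (PL M₂ y' i') →
      Nb (nd (gN ℓ₂)) C₃ (PL M₂ y' i') (f '' PL M₁ y i) := by
  obtain ⟨C₃, hC₃⟩ := mod_TWOSIDED (CP n F₁) (CP n F₂) (nd (gN ℓ₁)) (nd (gN ℓ₂))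
    (nd_symm W₁.norm) (nd_tri W₁.norm) (nd_symm W₂.norm) (nd_tri W₂.norm)
    {A | ∃ y i, A = PL M₁ y i} {B | ∃ y i, B = PL M₂ y i} K Ca f g hq
    (by
      rintro _ ⟨y, i, rfl⟩
      obtain ⟨y', i', h⟩ := hf y i
      exact ⟨_, ⟨y', i', rfl⟩, h⟩)
    (by
      rintro _ ⟨y, i, rfl⟩
      obtain ⟨y', i', h⟩ := hg y i
      exact ⟨_, ⟨y', i', rfl⟩, h⟩)
    (by
      intro C₁
      refine ⟨C₁, ?_⟩
      rintro _ ⟨y, i, rfl⟩ _ ⟨y', i', rfl⟩ h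
      obtain ⟨rfl, b, hb, u, hu, rfl, hgu⟩ := mod_RPL n hn F₁ ℓ₁ h₁ M₁ τ₁ hM₁ P₁ W₁ C₁ y y' i i' h
      rintro _ ⟨a, ha, rfl⟩
      refine ⟨y * ι i (b * a), ⟨b * a, M₁.mul_mem hb ha, rfl⟩, ?_⟩
      have e : y * ι i b * u * ι i a = y * ι i (b * a) * u := by
        rw [mul_assoc (y * ι i b), ← W₁.ι_Lam i a u hu, map_mul]; group
      rw [e, nd_symm W₁.norm]
      unfold nd
      rw [inv_mul_cancel_left]
      exact hgu)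
  exact ⟨C₃, fun y i y' i' h => hC₃ _ ⟨y, i, rfl⟩ _ ⟨y', i', rfl⟩ h⟩

/-- TB -/
theorem TB (hn : 5 ≤ n) (h₂ : IsNorm ℓ₂) (W₁ : Walls P₁) (W₂ : Walls P₂)
    (hM₂ : LampLike ℓ₂ M₂ τ₂) {Ca Cb : ℕ}
    (hq : QIP (nd (gN ℓ₁)) (nd (gN ℓ₂)) K f g)
    (hCa : ∀ y i, ∃ y' i', Nb (nd (gN ℓ₂)) Ca (f '' PL M₁ y i) (PL M₂ y' i'))
    (hCb : ∀ y i y' i', Nb (nd (gN ℓ₂)) Ca (f '' PL M₁ y i) (PL M₂ y' i') →
      Nb (nd (gN ℓ₂)) Cb (PL M₂ y' i') (f '' PL M₁ y i)) (T : ℕ) :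
    ∃ T' : ℕ, ∀ (J : TW n F₂) (h₀ : F₂) (z : CP n F₁) (i : ZMod n) (u : CP n F₁), u ∈ Lam i →
      Nb (nd (gN ℓ₂)) T (f '' PL M₁ z i) (Wall P₂ J h₀) →
      Nb (nd (gN ℓ₂)) T (f '' PL M₁ (z * u) i) (Wall P₂ J h₀) → gN ℓ₁ u ≤ T' := by
  refine ⟨3 * K + K * (Ca + 2 * (Cb + T) + Cb), ?_⟩
  intro J h₀ z i u hu N1 N2
  obtain ⟨y1, j1, H1⟩ := hCa z i
  obtain ⟨y2, j2, H2⟩ := hCa (z * u) i
  have H1' := hCb _ _ _ _ H1
  have H2' := hCb _ _ _ _ H2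
  have n1 : Nb (nd (gN ℓ₂)) (Cb + T) (PL M₂ y1 j1) (Wall P₂ J h₀) := by
    intro q hq1
    obtain ⟨p, hp, hpd⟩ := H1' q hq1
    obtain ⟨e, he, hed⟩ := N1 p hp
    exact ⟨e, he, (nd_tri W₂.norm q p e).trans (by omega)⟩
  have n2 : Nb (nd (gN ℓ₂)) (Cb + T) (PL M₂ y2 j2) (Wall P₂ J h₀) := by
    intro q hq1
    obtain ⟨p, hp, hpd⟩ := H2' q hq1
    obtain ⟨e, he, hed⟩ := N2 p hp
    exact ⟨e, he, (nd_tri W₂.norm q p e).trans (by omega)⟩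
  have n12 : Nb (nd (gN ℓ₂)) (Cb + (K * gN ℓ₁ u + K) + Ca) (PL M₂ y1 j1) (PL M₂ y2 j2) := by
    intro q hq1
    obtain ⟨_, ⟨_, ⟨a, ha, rfl⟩, rfl⟩, hpd⟩ := H1' q hq1
    obtain ⟨q', hq', hqd⟩ := H2 (f (z * u * ι i a)) ⟨_, ⟨a, ha, rfl⟩, rfl⟩
    refine ⟨q', hq', ?_⟩
    have e1 := nd_tri W₂.norm q (f (z * ι i a)) q'
    have e2 := nd_tri W₂.norm (f (z * ι i a)) (f (z * u * ι i a)) q'
    have e3 := hq.f_le (z * ι i a) (z * u * ι i a)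
    have e4 : nd (gN ℓ₁) (z * ι i a) (z * u * ι i a) = gN ℓ₁ u := by
      rw [mul_assoc z u, ← W₁.ι_Lam i a u hu, ← mul_assoc]
      unfold nd
      rw [inv_mul_cancel_left]
    rw [e4] at e3
    omega
  obtain ⟨rfl, b, hb, v, hv, rfl, _⟩ := mod_RPL n hn F₂ ℓ₂ h₂ M₂ τ₂ hM₂ P₂ W₂ _ _ _ _ _ n12
  obtain ⟨w₀, hw₀, htw, hadj⟩ := plane_cross W₂ h₂ M₂ hM₂.unb J h₀ y1 j1 (Cb + T) n1
  obtain ⟨b1, u1, hu1, hb1⟩ := (W₂.St_mem j1 _).1 ((W₂.tw_eq _ _ _ _).1 htw).2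
  have hy1 : y1 = w₀ * ι j1 b1 * u1 := by rw [mul_assoc, ← hb1]; group
  have g1 : gN ℓ₂ u1 ≤ Cb + T := by
    obtain ⟨e, he, hed⟩ := n1 (y1 * ι j1 1) ⟨1, M₂.one_mem, rfl⟩
    rw [hy1] at hed
    exact plane_wall W₂ hn h₂ J h₀ w₀ hw₀ j1 hadj b1 1 u1 hu1 e he _ hed
  have g2 : gN ℓ₂ (u1 * v) ≤ Cb + T := by
    obtain ⟨e, he, hed⟩ := n2 (y1 * ι j1 b * v * ι j1 1) ⟨1, M₂.one_mem, rfl⟩
    have e1 : y1 * ι j1 b * v = w₀ * ι j1 (b1 * b) * (u1 * v) := by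
      rw [hy1, mul_assoc (w₀ * ι j1 b1) u1, ← W₂.ι_Lam j1 b u1 hu1, map_mul]; group
    rw [e1] at hed
    exact plane_wall W₂ hn h₂ J h₀ w₀ hw₀ j1 hadj (b1 * b) 1 (u1 * v) (Subgroup.mul_mem _ hu1 hv)
      e he _ hed
  have g3 : gN ℓ₂ v ≤ 2 * (Cb + T) := by
    have e1 := W₂.norm.mul_le u1⁻¹ (u1 * v)
    rw [inv_mul_cancel_left, W₂.norm.inv] at e1
    omega
  -- final estimate
  obtain ⟨q, ⟨a1, ha1, rfl⟩, hqd⟩ := H1 (f (z * ι i 1)) ⟨_, ⟨1, M₁.one_mem, rfl⟩, rfl⟩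
  obtain ⟨_, ⟨_, ⟨a2, ha2, rfl⟩, rfl⟩, hpd⟩ := H2' (y1 * ι j1 b * v * ι j1 (b⁻¹ * a1))
    ⟨b⁻¹ * a1, M₂.mul_mem (M₂.inv_mem hb) ha1, rfl⟩
  have e1 : y1 * ι j1 b * v * ι j1 (b⁻¹ * a1) = y1 * ι j1 a1 * v := by
    rw [mul_assoc (y1 * ι j1 b) v, ← W₂.ι_Lam j1 _ v hv, map_mul, map_inv]; group
  rw [e1] at hpd
  have e2 : nd (gN ℓ₂) (y1 * ι j1 a1) (y1 * ι j1 a1 * v) = gN ℓ₂ v := by
    unfold nd; rw [inv_mul_cancel_left]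
  have e3 := nd_tri W₂.norm (f (z * ι i 1)) (y1 * ι j1 a1) (f (z * u * ι i a2))
  have e4 := nd_tri W₂.norm (y1 * ι j1 a1) (y1 * ι j1 a1 * v) (f (z * u * ι i a2))
  have e5 := nd_pull W₁ hq (z * ι i 1) (z * u * ι i a2) (Ca + 2 * (Cb + T) + Cb) (by omega)
  have e6 : nd (gN ℓ₁) (z * ι i 1) (z * u * ι i a2) = ℓ₁ a2 + gN ℓ₁ u := by
    rw [mul_assoc z u, ← W₁.ι_Lam i a2 u hu, nd_left]
    unfold nd
    rw [map_one, inv_one, one_mul, W₁.gN_prod i a2 u hu]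
  omega

/-! ### Types -/

/-- the type of a set `A` with respect to a wall -/
def tpS (P₂ : GP n F₂ ℓ₂) (f : CP n F₁ → CP n F₂) (D : ℕ) (J : TW n F₂) (h : F₂)
    (A : Set (CP n F₁)) : Prop :=
  ∃ w ∈ A, (∀ e ∈ Wall P₂ J h, D < nd (gN ℓ₂) (f w) e) ∧ J.pi P₂ (f w) = h

theorem tp_all {D : ℕ} {J : TW n F₂} {h : F₂} {A : Set (CP n F₁)}
    (hd : (∀ w ∈ A, J.pi P₂ (f w) = h → ∃ e ∈ Wall P₂ J h, nd (gN ℓ₂) (f w) e ≤ D) ∨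
      (∀ w ∈ A, J.pi P₂ (f w) ≠ h → ∃ e ∈ Wall P₂ J h, nd (gN ℓ₂) (f w) e ≤ D))
    (ht : tpS P₂ f D J h A) (w : CP n F₁) (hw : w ∈ A)
    (hdeep : ∀ e ∈ Wall P₂ J h, D < nd (gN ℓ₂) (f w) e) : J.pi P₂ (f w) = h := by
  by_contra hne
  rcases hd with hd | hd
  · obtain ⟨w', hw', hdeep', hpi⟩ := ht
    obtain ⟨e, he, hed⟩ := hd w' hw' hpi
    exact absurd hed (not_le.2 (hdeep' e he))
  · obtain ⟨e, he, hed⟩ := hd w hw hne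
    exact absurd hed (not_le.2 (hdeep e he))

theorem tp_diff_aux (W₂ : Walls P₂)
    (hq : QIP (nd (gN ℓ₁)) (nd (gN ℓ₂)) K f g) {D : ℕ} {J : TW n F₂} {h : F₂}
    {x x' : CP n F₁} (hxx : nd (gN ℓ₁) x x' ≤ 1)
    (hdeep : ∀ e ∈ Wall P₂ J h, D + 2 * K < nd (gN ℓ₂) (f x) e) :
    (∀ e ∈ Wall P₂ J h, D < nd (gN ℓ₂) (f x') e) ∧
      (J.pi P₂ (f x) = h ↔ J.pi P₂ (f x') = h) := by
  have e2 := hq.f_le x x'
  have e3 : K * nd (gN ℓ₁) x x' ≤ K * 1 := Nat.mul_le_mul_left _ hxx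
  have e4 : nd (gN ℓ₂) (f x) (f x') ≤ 2 * K := by omega
  refine ⟨?_, ?_⟩
  · intro e he
    have := hdeep e he
    have := nd_tri W₂.norm (f x) (f x') e
    omega
  · constructor
    · intro hx
      by_contra hx'
      obtain ⟨w, hw1, hw2, hw3⟩ := W₂.cross_geo J (f x) (f x') (by rw [hx]; exact fun h => hx' h.symm)
      have h1 := hdeep w ⟨hw1, by rw [hw2, hx]⟩
      unfold nd at h1 e4
      omega
    · intro hx'
      by_contra hx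
      obtain ⟨w, hw1, hw2, hw3⟩ := W₂.cross_geo J (f x') (f x) (by rw [hx']; exact fun h => hx h.symm)
      have h1 := hdeep w ⟨hw1, by rw [hw2, hx']⟩
      rw [nd_symm W₂.norm] at h1 e4
      unfold nd at h1 e4
      omega

theorem tp_diff (W₂ : Walls P₂)
    (hq : QIP (nd (gN ℓ₁)) (nd (gN ℓ₂)) K f g) {D : ℕ} {J : TW n F₂} {h : F₂}
    {A A' : Set (CP n F₁)}
    (hd : (∀ w ∈ A, J.pi P₂ (f w) = h → ∃ e ∈ Wall P₂ J h, nd (gN ℓ₂) (f w) e ≤ D) ∨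
      (∀ w ∈ A, J.pi P₂ (f w) ≠ h → ∃ e ∈ Wall P₂ J h, nd (gN ℓ₂) (f w) e ≤ D))
    (hd' : (∀ w ∈ A', J.pi P₂ (f w) = h → ∃ e ∈ Wall P₂ J h, nd (gN ℓ₂) (f w) e ≤ D) ∨
      (∀ w ∈ A', J.pi P₂ (f w) ≠ h → ∃ e ∈ Wall P₂ J h, nd (gN ℓ₂) (f w) e ≤ D))
    (hne : ¬ (tpS P₂ f D J h A ↔ tpS P₂ f D J h A'))
    {x x' : CP n F₁} (hx : x ∈ A) (hx' : x' ∈ A') (hxx : nd (gN ℓ₁) x x' ≤ 1) :
    ∃ e ∈ Wall P₂ J h, nd (gN ℓ₂) (f x) e ≤ D + 2 * K := by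
  by_contra hc
  push Not at hc
  obtain ⟨h1, h2⟩ := tp_diff_aux W₂ hq hxx hc
  have h3 : ∀ e ∈ Wall P₂ J h, D < nd (gN ℓ₂) (f x) e := by
    intro e he
    have := hc e he
    omega
  apply hne
  constructor
  · intro ht
    exact ⟨x', hx', h1, h2.1 (tp_all hd ht x hx h3)⟩
  · intro ht
    exact ⟨x, hx, h3, h2.2 (tp_all hd' ht x' hx' h1)⟩

theorem ℓ_one_of_Walls {n : ℕ} [NeZero n] {F : Type} [Group F] {ℓ : F → ℕ} {P : GP n F ℓ}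
    (W : Walls P) : ℓ 1 = 0 := by
  have := W.gN_ι (0 : ZMod n) (1 : F)
  rw [← this, map_one]
  exact (W.norm.eq_zero 1).2 rfl

/-- constancy from the lamplighter structure -/
theorem const_of_lamp {F : Type} [Group F] {ℓ : F → ℕ} {M : Subgroup F} {τ : F}
    (hM : LampLike ℓ M τ) (S Q : F → Prop) (T' : ℕ) (h1 : ∀ a, ∀ m ∈ M, S (a * m) ↔ S a)
    (h2 : ∀ a, ¬ (S a ↔ S (a * τ)) → Q a) (h3 : ∀ a a', Q a → Q a' → ℓ (a⁻¹ * a') ≤ T') :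
    ∀ a a', S a ↔ S a' := by
  have hτ : ∀ a, S a ↔ S (a * τ) := by
    intro a
    by_contra hne
    have hQ := h2 a hne
    obtain ⟨t, ht, ht1, ht2, ht3, m, hm, hmeq⟩ := hM.comm T'
    have s1 : S (a * t) ↔ S (a * t * τ) := by
      by_contra hc
      have := h3 _ _ hQ (h2 _ hc)
      rw [inv_mul_cancel_left] at this
      omega
    have s2 : S (a * t * τ * t⁻¹) ↔ S (a * t * τ * t⁻¹ * τ) := by
      by_contra hc
      have := h3 _ _ hQ (h2 _ hc)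
      have e : a⁻¹ * (a * t * τ * t⁻¹) = t * τ * t⁻¹ := by group
      rw [e] at this
      omega
    have s3 : S (a * t * τ * t⁻¹ * τ * t) ↔ S (a * t * τ * t⁻¹ * τ * t * τ) := by
      by_contra hc
      have := h3 _ _ hQ (h2 _ hc)
      have e : a⁻¹ * (a * t * τ * t⁻¹ * τ * t) = t * τ * t⁻¹ * τ * t := by group
      rw [e] at this
      omega
    have e4 : a * t * τ * t⁻¹ * τ * t * τ = a * τ * m := by
      calc a * t * τ * t⁻¹ * τ * t * τ = a * (t * τ * t⁻¹ * τ * t * τ) := by group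
        _ = a * (τ * m) := by rw [hmeq]
        _ = _ := by group
    apply hne
    rw [← h1 a t ht, s1, ← h1 _ t⁻¹ (M.inv_mem ht), s2, ← h1 _ t ht, s3, e4, h1 _ m hm]
  have hgen : ∀ g ∈ Subgroup.closure (insert τ (M : Set F)), ∀ a, S (a * g) ↔ S a := by
    intro g hg
    induction hg using Subgroup.closure_induction with
    | mem x hx =>
      intro a
      rcases hx with rfl | hx
      · exact (hτ a).symm
      · exact h1 a x hx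
    | one => intro a; rw [mul_one]
    | mul x y _ _ hx hy => intro a; rw [← mul_assoc, hy, hx]
    | inv x _ hx =>
      intro a
      have := hx (a * x⁻¹)
      rw [inv_mul_cancel_right] at this
      exact this.symm
  rw [hM.gen] at hgen
  intro a a'
  have := hgen (a⁻¹ * a') (Subgroup.mem_top _) a
  rw [mul_inv_cancel_left] at this
  exact this.symm

theorem tp_const (hn : 5 ≤ n) (h₂ : IsNorm ℓ₂) (W₁ : Walls P₁) (W₂ : Walls P₂)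
    (hM₁ : LampLike ℓ₁ M₁ τ₁) (hM₂ : LampLike ℓ₂ M₂ τ₂) {Ca Cb : ℕ}
    (hq : QIP (nd (gN ℓ₁)) (nd (gN ℓ₂)) K f g)
    (hCa : ∀ y i, ∃ y' i', Nb (nd (gN ℓ₂)) Ca (f '' PL M₁ y i) (PL M₂ y' i'))
    (hCb : ∀ y i y' i', Nb (nd (gN ℓ₂)) Ca (f '' PL M₁ y i) (PL M₂ y' i') →
      Nb (nd (gN ℓ₂)) Cb (PL M₂ y' i') (f '' PL M₁ y i)) (D : ℕ)
    (hD : ∀ y i, ∀ (J : TW n F₂) (h : F₂),
      (∀ w ∈ LF M₁ y i, J.pi P₂ (f w) = h → ∃ e ∈ Wall P₂ J h, nd (gN ℓ₂) (f w) e ≤ D) ∨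
      (∀ w ∈ LF M₁ y i, J.pi P₂ (f w) ≠ h → ∃ e ∈ Wall P₂ J h, nd (gN ℓ₂) (f w) e ≤ D))
    (J : TW n F₂) (h : F₂) (y : CP n F₁) (i : ZMod n) (a b : F₁) :
    tpS P₂ f D J h (LF M₁ y i) ↔ tpS P₂ f D J h (LF M₁ (y * ι i a * ι (i + 1) b) i) := by
  obtain ⟨T', hT'⟩ := TB hn h₂ W₁ W₂ hM₂ hq hCa hCb (D + 2 * K)
  -- vary the first coordinate
  have first : ∀ z : CP n F₁, ∀ a a' : F₁, tpS P₂ f D J h (LF M₁ (z * ι i a) i) ↔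
      tpS P₂ f D J h (LF M₁ (z * ι i a') i) := by
    intro z
    refine const_of_lamp hM₁ (fun a => tpS P₂ f D J h (LF M₁ (z * ι i a) i))
      (fun a => Nb (nd (gN ℓ₂)) (D + 2 * K) (f '' PL M₁ (z * ι i a) (i + 1)) (Wall P₂ J h)) T'
      ?_ ?_ ?_
    · intro a m hm
      have e := LF_translate M₁ i (z * ι i a) m 1 hm M₁.one_mem
      rw [map_one, mul_one, mul_assoc z, ← map_mul] at e
      simp only [e]
    · rintro a hne _ ⟨_, ⟨m, hm, rfl⟩, rfl⟩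
      have hxx : nd (gN ℓ₁) (z * ι i a * ι (i + 1) m) (z * ι i (a * τ₁) * ι (i + 1) m) ≤ 1 := by
        rw [nd_flat W₁, inv_mul_cancel_left, inv_mul_cancel, ℓ_one_of_Walls W₁]
        simpa using hM₁.τ_le
      exact tp_diff W₂ hq (hD _ _ _ _) (hD _ _ _ _) hne
        ⟨1, M₁.one_mem, m, hm, by rw [map_one, mul_one]⟩
        ⟨1, M₁.one_mem, m, hm, by rw [map_one, mul_one]⟩ hxx
    · intro a a' ha ha'
      have hu : (ι i (a⁻¹ * a') : CP n F₁) ∈ Lam (i + 1) := by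
        unfold Lam
        rw [add_sub_cancel_right]
        exact Subgroup.mem_sup_left ⟨_, rfl⟩
      have := hT' J h (z * ι i a) (i + 1) (ι i (a⁻¹ * a')) hu ha (by
        rw [mul_assoc z, ← map_mul, mul_inv_cancel_left]; exact ha')
      rwa [W₁.gN_ι] at this
  have second : ∀ z : CP n F₁, ∀ a a' : F₁, tpS P₂ f D J h (LF M₁ (z * ι (i + 1) a) i) ↔
      tpS P₂ f D J h (LF M₁ (z * ι (i + 1) a') i) := by
    intro z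
    refine const_of_lamp hM₁ (fun a => tpS P₂ f D J h (LF M₁ (z * ι (i + 1) a) i))
      (fun a => Nb (nd (gN ℓ₂)) (D + 2 * K) (f '' PL M₁ (z * ι (i + 1) a) i) (Wall P₂ J h)) T'
      ?_ ?_ ?_
    · intro a m hm
      have e := LF_translate M₁ i (z * ι (i + 1) a) 1 m M₁.one_mem hm
      rw [map_one, mul_one, mul_assoc z, ← map_mul] at e
      simp only [e]
    · rintro a hne _ ⟨_, ⟨m, hm, rfl⟩, rfl⟩
      have ex : ∀ c : F₁, z * ι (i + 1) c * ι i m = z * ι i m * ι (i + 1) c := by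
        intro c
        rw [mul_assoc, ι_comm', ← mul_assoc]
      have hxx : nd (gN ℓ₁) (z * ι (i + 1) a * ι i m) (z * ι (i + 1) (a * τ₁) * ι i m) ≤ 1 := by
        rw [ex, ex, nd_flat W₁, inv_mul_cancel_left, inv_mul_cancel, ℓ_one_of_Walls W₁]
        simpa using hM₁.τ_le
      exact tp_diff W₂ hq (hD _ _ _ _) (hD _ _ _ _) hne
        ⟨m, hm, 1, M₁.one_mem, by rw [map_one, mul_one]⟩
        ⟨m, hm, 1, M₁.one_mem, by rw [map_one, mul_one]⟩ hxx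
    · intro a a' ha ha'
      have := hT' J h (z * ι (i + 1) a) i (ι (i + 1) (a⁻¹ * a')) (ι_succ_mem_Lam i _) ha (by
        rw [mul_assoc z, ← map_mul, mul_inv_cancel_left]; exact ha')
      rwa [W₁.gN_ι] at this
  have e1 := first y 1 a
  rw [map_one, mul_one] at e1
  have e2 := second (y * ι i a) 1 b
  rw [map_one, mul_one] at e2
  exact e1.trans e2

end TwoGroups

theorem mod_FFLAT (hW : S_WALLS) : S_FFLAT := by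
  intro n _ hn F₁ F₂ _ _ ℓ₁ ℓ₂ h₁ h₂ M₁ M₂ τ₁ τ₂ hM₁ hM₂ P₁ P₂ K C D f g hq hf hg hD hdeep
  have W₁ := hW n hn F₁ ℓ₁ h₁ P₁
  have W₂ := hW n hn F₂ ℓ₂ h₂ P₂
  have hq' : QIP (nd (gN ℓ₂)) (nd (gN ℓ₁)) K g f := ⟨hq.g_le, hq.f_le, hq.fg, hq.gf⟩
  obtain ⟨Ca1, hCa1⟩ := PL_img hn h₁ h₂ W₁ W₂ hM₁ hM₂ hq hf hg
  obtain ⟨Ca2, hCa2⟩ := PL_img hn h₂ h₁ W₂ W₁ hM₂ hM₁ hq' hg hf
  have mono : ∀ {X : Type} (d : X → X → ℕ) {c c' : ℕ} {A B : Set X}, c ≤ c' → Nb d c A B →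
      Nb d c' A B := by
    intro X d c c' A B hc h a ha
    obtain ⟨b, hb, hd⟩ := h a ha
    exact ⟨b, hb, hd.trans hc⟩
  have hCa : ∀ y i, ∃ y' i', Nb (nd (gN ℓ₂)) (max Ca1 Ca2) (f '' PL M₁ y i) (PL M₂ y' i') := by
    intro y i
    obtain ⟨y', i', h⟩ := hCa1 y i
    exact ⟨y', i', mono _ (le_max_left _ _) h⟩
  have hCa' : ∀ y i, ∃ y' i', Nb (nd (gN ℓ₁)) (max Ca1 Ca2) (g '' PL M₂ y i) (PL M₁ y' i') := by
    intro y i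
    obtain ⟨y', i', h⟩ := hCa2 y i
    exact ⟨y', i', mono _ (le_max_right _ _) h⟩
  obtain ⟨Cb, hCb⟩ := PL_dense hn h₁ W₁ W₂ hM₁ hq hCa hCa'
  obtain ⟨C₃, hC₃⟩ := LF_dense hn h₁ W₁ W₂ hM₁ hq hf hg
  refine ⟨C, fun y i => ?_⟩
  obtain ⟨y', i', H⟩ := hf y i
  refine ⟨y', i', ?_⟩
  -- all leaf flats of `FL y i` go near the same flat
  rintro _ ⟨_, ⟨a, b, rfl⟩, rfl⟩
  obtain ⟨y2, i2, H2⟩ := hf (y * ι i a * ι (i + 1) b) i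
  have hmem : y * ι i a * ι (i + 1) b ∈ LF M₁ (y * ι i a * ι (i + 1) b) i :=
    ⟨1, M₁.one_mem, 1, M₁.one_mem, by rw [map_one, map_one, mul_one, mul_one]⟩
  have htp := tp_const hn h₂ W₁ W₂ hM₁ hM₂ hq hCa hCb D hD (P₂ := P₂)
  have H2' := hC₃ _ _ _ _ H2
  -- a tree-wall of the second flat belongs to the first
  have key : ∀ (J : TW n F₂), (∀ r : ℕ, ∀ h : F₂, ∃ q ∈ LF M₂ y2 i2, r < ℓ₂ (h⁻¹ * J.pi P₂ q)) →
      J = tw i' y' ∨ J = tw (i' + 1) y' := by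
    intro J hunb
    by_contra hc
    push Not at hc
    have hconst : ∀ q ∈ LF M₂ y' i', J.pi P₂ q = J.pi P₂ y' := by
      rintro _ ⟨a', _, b', _, rfl⟩
      exact pi_const_LF W₂ J i' y' hc.1 hc.2 a' b'
    have t1 : tpS P₂ f D J (J.pi P₂ y') (LF M₁ y i) := by
      obtain ⟨w, hw, hwd⟩ := hdeep (max C D) y i J (J.pi P₂ y')
      refine ⟨w, hw, fun e he => lt_of_le_of_lt (le_max_right _ _) (hwd e he), ?_⟩
      obtain ⟨q, hq1, hq2⟩ := H (f w) ⟨w, hw, rfl⟩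
      by_contra hne
      obtain ⟨w1, hw1, hw2, hw3⟩ := W₂.cross_geo J q (f w) (by
        rw [hconst q hq1]; exact fun h => hne h.symm)
      have h1 := hwd w1 ⟨hw1, by rw [hw2, hconst q hq1]⟩
      rw [nd_symm W₂.norm] at h1 hq2
      unfold nd at h1 hq2
      have := le_max_left C D
      omega
    have t2 : ¬ tpS P₂ f D J (J.pi P₂ y') (LF M₁ (y * ι i a * ι (i + 1) b) i) := by
      intro ht
      obtain ⟨q, hq1, hq2⟩ := hunb (C₃ + D) (J.pi P₂ y')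
      obtain ⟨_, ⟨w, hw, rfl⟩, hwd⟩ := H2' q hq1
      have e1 := (W₂.pi_lip J q (f w)).trans (W₂.m_le_gN _ _)
      have hdw : ∀ e ∈ Wall P₂ J (J.pi P₂ y'), D < nd (gN ℓ₂) (f w) e := by
        intro e he
        have e2 := (W₂.pi_lip J q e).trans (W₂.m_le_gN _ _)
        rw [he.2] at e2
        have e3 := nd_tri W₂.norm q (f w) e
        have e4 : ℓ₂ ((J.pi P₂ q)⁻¹ * J.pi P₂ y') = ℓ₂ ((J.pi P₂ y')⁻¹ * J.pi P₂ q) := by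
          rw [← h₂.inv]; congr 1; group
        unfold nd at e3 hwd ⊢
        omega
      have hpi := tp_all (hD _ _ _ _) ht w hw hdw
      rw [hpi] at e1
      have e4 : ℓ₂ ((J.pi P₂ q)⁻¹ * J.pi P₂ y') = ℓ₂ ((J.pi P₂ y')⁻¹ * J.pi P₂ q) := by
        rw [← h₂.inv]; congr 1; group
      unfold nd at hwd
      omega
    exact t2 ((htp J (J.pi P₂ y') y i a b).1 t1)
  have unbJ : ∀ (x h : F₂) (r : ℕ), ∃ m ∈ M₂, r < ℓ₂ (h⁻¹ * (x * m)) := by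
    intro x h r
    obtain ⟨m, hm, hr⟩ := hM₂.unb (ℓ₂ (h⁻¹ * x) + r)
    refine ⟨m, hm, ?_⟩
    have e1 := h₂.mul_le (h⁻¹ * x)⁻¹ (h⁻¹ * (x * m))
    have e2 : (h⁻¹ * x)⁻¹ * (h⁻¹ * (x * m)) = m := by group
    rw [e2, h₂.inv] at e1
    omega
  have k1 := key (tw i2 y2) (by
    intro r h
    obtain ⟨m, hm, hr⟩ := unbJ ((tw i2 y2).pi P₂ y2) h r
    exact ⟨y2 * ι i2 m * ι (i2 + 1) 1, ⟨m, hm, 1, M₂.one_mem, rfl⟩, by
      rw [pi_flat_fst W₂ hn]; exact hr⟩)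
  have k2 := key (tw (i2 + 1) y2) (by
    intro r h
    obtain ⟨m, hm, hr⟩ := unbJ ((tw (i2 + 1) y2).pi P₂ y2) h r
    exact ⟨y2 * ι i2 1 * ι (i2 + 1) m, ⟨1, M₂.one_mem, m, hm, rfl⟩, by
      rw [pi_flat_snd W₂ hn]; exact hr⟩)
  have hflat : i2 = i' ∧ y2⁻¹ * y' ∈ Fl i2 := by
    rcases k1 with h1 | h1
    · obtain ⟨rfl, h3⟩ := (W₂.tw_eq _ _ _ _).1 h1
      rcases k2 with h2 | h2
      · exact absurd ((W₂.tw_eq _ _ _ _).1 h2).1 (succ_ne hn _)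
      · exact ⟨rfl, (W₂.Fl_eq _ _).1 ⟨h3, ((W₂.tw_eq _ _ _ _).1 h2).2⟩⟩
    · obtain ⟨rfl, h3⟩ := (W₂.tw_eq _ _ _ _).1 h1
      rcases k2 with h2 | h2
      · exact absurd ((W₂.tw_eq _ _ _ _).1 h2).1 (succ_succ_ne hn _)
      · exact absurd ((W₂.tw_eq _ _ _ _).1 h2).1 (succ_ne hn _)
  obtain ⟨rfl, hy⟩ := hflat
  obtain ⟨q, ⟨a', ha', b', hb', rfl⟩, hqd⟩ := H2 (f (y * ι i a * ι (i + 1) b)) ⟨_, hmem, rfl⟩
  refine ⟨_, ?_, hqd⟩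
  obtain ⟨c, c', hcc⟩ := (W₂.Fl_mem _ _).1 (Subgroup.inv_mem _ hy)
  have hy2 : y2 = y' * ι i2 c * ι (i2 + 1) c' := by
    have : (y2⁻¹ * y')⁻¹ = y'⁻¹ * y2 := by group
    rw [this] at hcc
    rw [mul_assoc, ← hcc]; group
  refine ⟨c * a', c' * b', ?_⟩
  rw [hy2, map_mul, map_mul]
  calc y' * ι i2 c * ι (i2 + 1) c' * ι i2 a' * ι (i2 + 1) b'
      = y' * ι i2 c * (ι (i2 + 1) c' * ι i2 a') * ι (i2 + 1) b' := by group
    _ = y' * ι i2 c * (ι i2 a' * ι (i2 + 1) c') * ι (i2 + 1) b' := by rw [ι_comm']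
    _ = _ := by group

end CQ
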