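import Pool.Agent.Helper10.CQ.NS
import Pool.Agent.Helper13.CQ.ZCOL
import Pool.Agent.Helper28.CQ.FFb
import Pool.Agent.Helper47.CQ.LP
import Pool.Agent.Helper57.CQ.LEAF
import Pool.Agent.Helper61.CQ.LFIMG
import Pool.Agent.Helper63.CQ.DIC
import Pool.Agent.Helper63.CQ.NOBIJ
import Pool.Agent.Helper81.CQ.DFLAT
import Pool.Agent.Helper81.CQ.FINAL
import Pool.Agent.Helper81.CQ.GTb
import Pool.Agent.Helper83.CQ.LAMCOL
import Pool.Agent.Helper83.CQ.WALLS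
import Pool.Agent.Helper84.CQ.GPb

set_option autoImplicit false

/-!
# Assembly (after Helper81's FINAL module): the cycle graph products of `L 4 1` and `L 4 2` are not
quasi-isometric.
-/

namespace CQ

open FIN in
theorem not_QI_of : S_LP → S_LLK → S_NOBIJ → S_GP → S_WALLS → S_LFIMG → S_FFLAT → S_GTREE →
    ∀ n : ℕ, 5 ≤ n → ¬ QI (CP n (L 4 1)) (CP n (L 4 2)) := by
  intro hLP hLLK hNOBIJ hGP hWALLS hLFIMG hFFLAT hGTREE n hn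
  have : NeZero n := ⟨by omega⟩
  have F1 := hLP 4 1
  have F2 := hLP 4 2
  rintro ⟨S, T, hS, hT, hSc, hTc, f, K, C, hf, hfs⟩
  obtain ⟨P₁⟩ := hGP n hn (L 4 1) (LN 4 1) F1.norm
  obtain ⟨P₂⟩ := hGP n hn (L 4 2) (LN 4 2) F2.norm
  have W₁ := hWALLS n hn (L 4 1) (LN 4 1) F1.norm P₁
  have W₂ := hWALLS n hn (L 4 2) (LN 4 2) F2.norm P₂
  obtain ⟨K₁, a1, a2⟩ := gN_wl F1.fin F1.gen W₁.norm hS hSc
  obtain ⟨K₂, b1, b2⟩ := gN_wl F2.fin F2.gen W₂.norm hT hTc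
  have hq : ∃ (g : CP n (L 4 2) → CP n (L 4 1)) (K' : ℕ),
      QIP (nd (gN (LN 4 1))) (nd (gN (LN 4 2))) K' f g := by
    apply qip_of (K := K₂ * K * K₁ + K₁ * K * K₂ + K₂ * C + K₁ * C) W₂.norm
    · intro x y
      have e1 : nd (gN (LN 4 2)) (f x) (f y) ≤ K₂ * wd T (f x) (f y) := b1 _
      have e2 := (hf x y).1
      have e3 : wd S x y ≤ K₁ * nd (gN (LN 4 1)) x y := a2 _
      have e4 : K * wd S x y ≤ K * (K₁ * nd (gN (LN 4 1)) x y) := Nat.mul_le_mul_left _ e3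
      have e5 : K₂ * wd T (f x) (f y) ≤ K₂ * (K * (K₁ * nd (gN (LN 4 1)) x y) + C) :=
        Nat.mul_le_mul_left _ (by omega)
      have e6 : K₂ * K * K₁ * nd (gN (LN 4 1)) x y ≤
          (K₂ * K * K₁ + K₁ * K * K₂ + K₂ * C + K₁ * C) * nd (gN (LN 4 1)) x y :=
        Nat.mul_le_mul_right _ (by omega)
      have e7 : K₂ * (K * (K₁ * nd (gN (LN 4 1)) x y) + C) =
        K₂ * K * K₁ * nd (gN (LN 4 1)) x y + K₂ * C := by ring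
      omega
    · intro x y
      have e1 : nd (gN (LN 4 1)) x y ≤ K₁ * wd S x y := a1 _
      have e2 := (hf x y).2
      have e3 : wd T (f x) (f y) ≤ K₂ * nd (gN (LN 4 2)) (f x) (f y) := b2 _
      have e4 : K * wd T (f x) (f y) ≤ K * (K₂ * nd (gN (LN 4 2)) (f x) (f y)) :=
        Nat.mul_le_mul_left _ e3
      have e5 : K₁ * wd S x y ≤ K₁ * (K * (K₂ * nd (gN (LN 4 2)) (f x) (f y)) + C) :=
        Nat.mul_le_mul_left _ (by omega)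
      have e6 : K₁ * K * K₂ * nd (gN (LN 4 2)) (f x) (f y) ≤
          (K₂ * K * K₁ + K₁ * K * K₂ + K₂ * C + K₁ * C) * nd (gN (LN 4 2)) (f x) (f y) :=
        Nat.mul_le_mul_right _ (by omega)
      have e7 : K₁ * (K * (K₂ * nd (gN (LN 4 2)) (f x) (f y)) + C) =
        K₁ * K * K₂ * nd (gN (LN 4 2)) (f x) (f y) + K₁ * C := by ring
      omega
    · intro h
      obtain ⟨x, hx⟩ := hfs h
      refine ⟨x, ?_⟩
      have e1 : nd (gN (LN 4 2)) (f x) h ≤ K₂ * wd T (f x) h := b1 _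
      have e2 : K₂ * wd T (f x) h ≤ K₂ * C := Nat.mul_le_mul_left _ hx
      omega
  obtain ⟨g, K', hq⟩ := hq
  have hq' : QIP (nd (gN (LN 4 2))) (nd (gN (LN 4 1))) K' g f := ⟨hq.g_le, hq.f_le, hq.fg, hq.gf⟩
  obtain ⟨⟨C₁, hC₁⟩, ⟨D₁, hD₁⟩, hE₁⟩ := hLFIMG 4 1 2 le_rfl n hn P₂ K' f g hq
  obtain ⟨⟨C₂, hC₂⟩, ⟨D₂, hD₂⟩, hE₂⟩ := hLFIMG 4 2 1 le_rfl n hn P₁ K' g f hq'
  have L1 := hLLK 4 1 (by norm_num)
  have L2 := hLLK 4 2 (by norm_num)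
  have hC₁' : ∀ y i, ∃ y' i', Nb (nd (gN (LN 4 2))) (C₁ + C₂) (f '' LF (L.M 4 1) y i)
      (LF (L.M 4 2) y' i') := by
    intro y i
    obtain ⟨y', i', h⟩ := hC₁ y i
    exact ⟨y', i', Nb_mono (by omega) h⟩
  have hC₂' : ∀ y i, ∃ y' i', Nb (nd (gN (LN 4 1))) (C₁ + C₂) (g '' LF (L.M 4 2) y i)
      (LF (L.M 4 1) y' i') := by
    intro y i
    obtain ⟨y', i', h⟩ := hC₂ y i
    exact ⟨y', i', Nb_mono (by omega) h⟩
  obtain ⟨C₃, hC₃⟩ := hFFLAT n hn (L 4 1) (L 4 2) (LN 4 1) (LN 4 2) F1.norm F2.norm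
    (L.M 4 1) (L.M 4 2) L.tog L.tog L1 L2 P₁ P₂ K' (C₁ + C₂) D₁ f g hq hC₁' hC₂' hD₁ hE₁
  obtain ⟨C₄, hC₄⟩ := hFFLAT n hn (L 4 2) (L 4 1) (LN 4 2) (LN 4 1) F2.norm F1.norm
    (L.M 4 2) (L.M 4 1) L.tog L.tog L2 L1 P₂ P₁ K' (C₁ + C₂) D₂ g f hq' hC₂' hC₁' hD₂ hE₂
  have u1 : ∀ r : ℕ, ∃ a, r < LN 4 1 a := fun r => by
    obtain ⟨a, _, ha⟩ := L1.unb r
    exact ⟨a, ha⟩
  have u2 : ∀ r : ℕ, ∃ a, r < LN 4 2 a := fun r => by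
    obtain ⟨a, _, ha⟩ := L2.unb r
    exact ⟨a, ha⟩
  obtain ⟨β, K'', hβ⟩ := hGTREE n hn (L 4 1) (L 4 2) (LN 4 1) (LN 4 2) F1.norm F2.norm u1 u2
    P₁ P₂ K' (C₃ + C₄) f g hq (by
      intro y i
      obtain ⟨y', i', h⟩ := hC₃ y i
      exact ⟨y', i', Nb_mono (by omega) h⟩) (by
      intro y i
      obtain ⟨y', i', h⟩ := hC₄ y i
      exact ⟨y', i', Nb_mono (by omega) h⟩)
  exact hNOBIJ 4 (by norm_num) ⟨β, K'', hβ⟩

/-- for every `n ≥ 5` the cycle graph products of `L 4 1` and `L 4 2` are not quasi-isometric -/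
theorem not_QI (n : ℕ) (hn : 5 ≤ n) : ¬ QI (CP n (L 4 1)) (CP n (L 4 2)) :=
  have hDD := mod_DD mod_HEX
  have hNS := mod_NS mod_HEX hDD
  have hLCOL := mod_LCOL mod_LP mod_ZCOL
  have hLEAF := mod_LEAF mod_LP hDD hNS
  have hDIC := mod_DIC hDD hNS mod_LAMCOL mod_WALLS
  have hDEEP := mod_DEEP hDD mod_LAMCOL mod_WALLS
  have hDFLAT := mod_DFLAT hDIC mod_HEX mod_WALLS
  not_QI_of mod_LP (mod_LLK mod_LP) (mod_NOBIJ mod_LP hLEAF) mod_GP mod_WALLS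
    (mod_LFIMG hDIC hDEEP hDFLAT hLEAF hLCOL mod_LP mod_GP mod_WALLS)
    (mod_FFLAT mod_WALLS) (mod_GTREE mod_RFL mod_WALLS) n hn

end CQ
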