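import Pool.Agent.Helper28.CQ.Defs

set_option autoImplicit false

/-!
# Module statements for MP_74736d_al

Every module `X` proves `theorem mod_X : S_X` (or `S_Y → S_X` etc., as indicated).
-/

namespace CQ

open Relation

/-! ## Colourings of `Z^m` -/

/-- HEX: every colouring of a box by `m` colours has, for some colour `j`, a monochromatic path
joining the two faces in direction `j`. -/
def S_HEX : Prop := ∀ (m : ℕ) (N : Fin m → ℕ), 0 < m → ∀ col : V m → Fin m,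
  ∃ (j : Fin m) (x y : V m), (∀ i, 0 ≤ x i ∧ x i ≤ (N i : ℤ)) ∧ x j = 0 ∧ y j = (N j : ℤ) ∧
    col x = j ∧
    ReflTransGen (fun a b : V m => (∀ i, 0 ≤ a i ∧ a i ≤ (N i : ℤ)) ∧
      (∀ i, 0 ≤ b i ∧ b i ≤ (N i : ℤ)) ∧ dI a b ≤ 1 ∧ col a = j ∧ col b = j) x y

/-- DD: a set that is `m`-colourable misses a ball of radius `r` in every ball of radius `r'`. -/
def S_DD : Prop := ∀ (m k : ℕ) (Δ : ℕ → ℕ) (r : ℕ), k ≤ m → ∃ r' : ℕ, ∀ A : Set (V m),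
  Col k dI A Δ → ∀ x, ∃ y, dI x y ≤ r' ∧ ∀ w, dI y w ≤ r → w ∉ A

/-- NS: an `(m-1)`-colourable set does not separate points that are deep in its complement. -/
def S_NS : Prop := ∀ (m k : ℕ) (Δ : ℕ → ℕ), k + 1 ≤ m → ∃ D : ℕ, ∀ A : Set (V m),
  Col k dI A Δ → ∀ s : V m → Prop, (∀ x y, dI x y ≤ 1 → s x → ¬ s y → x ∈ A ∨ y ∈ A) →
  ∀ u v, (∀ w, dI u w ≤ D → w ∉ A) → (∀ w, dI v w ≤ D → w ∉ A) → s u → s v

/-- ZCOL: `Z^d` is `(d+1)`-colourable. -/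
def S_ZCOL : Prop := ∀ d : ℕ, ∃ Δ, Col (d + 1) dI (Set.univ : Set (V d)) Δ

/-! ## The lamplighter groups -/

/-- basic facts on the word norm of `L d k` -/
structure LFacts (d k : ℕ) : Prop where
  norm : IsNorm (LN d k)
  near : ∀ (K : ℕ) (a b : L d k), nd (LN d k) a b ≤ K →
    dI a.pos b.pos ≤ K ∧ ∀ q, K < dI q a.pos → a.lamp q = b.lamp q
  bdd : ∀ r : ℕ, ∃ B : ℕ, ∀ a : L d k, dI a.pos 0 ≤ r → (∀ q, r < dI q 0 → a.lamp q = 0) →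
    LN d k a ≤ B
  fin : (L.gens d k).Finite
  gen : Subgroup.closure (L.gens d k) = ⊤

def S_LP : Prop := ∀ (d k : ℕ) [NeZero k], LFacts d k

/-- LCOL: `L d k` is `(d+1)`-colourable. -/
def S_LCOL : Prop := ∀ (d k : ℕ) [NeZero k],
  ∃ Δ, Col (d + 1) (nd (LN d k)) (Set.univ : Set (L d k)) Δ

/-- LEAF: a coarse embedding `Z^m → L × P`, with `P` `(m-1)`-colourable, stays near one leaf of the
first factor. -/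
def S_LEAF : Prop := ∀ (d k : ℕ) [NeZero k] (m c : ℕ) (P : Type) (dP : P → P → ℕ) (ΔP : ℕ → ℕ),
  c + 1 ≤ m → (∀ x, dP x x = 0) → (∀ x y, dP x y = dP y x) →
  (∀ x y z, dP x z ≤ dP x y + dP y z) → Col c dP (Set.univ : Set P) ΔP →
  ∀ (K : ℕ) (ρ : ℕ → ℕ), ∃ C : ℕ, ∀ σ : V m → L d k × P,
    EMap m (fun a b => nd (LN d k) a.1 b.1 + dP a.2 b.2) K ρ σ →
    ∃ lam : V d → ZMod 2, (Function.support lam).Finite ∧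
      ∀ x q, C < dI q (σ x).1.pos → (σ x).1.lamp q = lam q

/-- NOBIJ: no bilipschitz bijection `L d 1 → L d 2` for `d ≥ 2`. -/
def S_NOBIJ : Prop := ∀ d : ℕ, 2 ≤ d → ¬ ∃ (β : L d 1 ≃ L d 2) (K : ℕ), ∀ x y,
  nd (LN d 2) (β x) (β y) ≤ K * nd (LN d 1) x y ∧ nd (LN d 1) x y ≤ K * nd (LN d 2) (β x) (β y)

/-! ## Free products and walls: colourings -/

open Classical in
/-- the norm on a free product -/
noncomputable def fnrm {I F : Type} [Group F] (ℓ : F → ℕ) (x : FP I F) : ℕ :=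
  ((Monoid.CoprodI.Word.equiv (M := fun _ : I => F) x).toList.map (fun p => ℓ p.2)).sum

/-- FPCOL: free products: two more colours -/
def S_FPCOL : Prop := ∀ (I F : Type) [Group F] (ℓ : F → ℕ) (k : ℕ) (ΔF : ℕ → ℕ), IsNorm ℓ →
  Col k (nd ℓ) (Set.univ : Set F) ΔF →
  ∃ Δ, Col (k + 2) (nd (fnrm ℓ)) (Set.univ : Set (FP I F)) Δ

/-- LAMCOL: cosets of `Lam i` are `(k+2)`-colourable, uniformly. (from FPCOL) -/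
def S_LAMCOL : Prop := ∀ (n : ℕ), 5 ≤ n → ∀ (F : Type) [Group F] (ℓ : F → ℕ) (k : ℕ)
  (ΔF : ℕ → ℕ), IsNorm ℓ → Col k (nd ℓ) (Set.univ : Set F) ΔF →
  ∃ Δ, ∀ (i : ZMod n) (z : CP n F), Col (k + 2) (nd (gN ℓ)) {w | z⁻¹ * w ∈ Lam i} Δ

/-! ## Graph products -/

def S_GP : Prop := ∀ (n : ℕ) [NeZero n], 5 ≤ n → ∀ (F : Type) [Group F] (ℓ : F → ℕ), IsNorm ℓ →
  Nonempty (GP n F ℓ)

def S_WALLS : Prop := ∀ (n : ℕ) [NeZero n], 5 ≤ n → ∀ (F : Type) [Group F] (ℓ : F → ℕ), IsNorm ℓ →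
  ∀ P : GP n F ℓ, Walls P

/-- DIC: dichotomy for coarse embeddings of `Z^m` and walls; and existence of deep points, also
for two walls simultaneously. (from NS, DD, LAMCOL, WALLS) -/
def S_DIC : Prop := ∀ (n : ℕ) [NeZero n], 5 ≤ n → ∀ (F : Type) [Group F] (ℓ : F → ℕ), IsNorm ℓ →
  ∀ (P : GP n F ℓ) (m k : ℕ) (ΔF : ℕ → ℕ), k + 3 ≤ m → Col k (nd ℓ) (Set.univ : Set F) ΔF →
  ∀ (K : ℕ) (ρ : ℕ → ℕ), ∃ D : ℕ, ∀ σ : V m → CP n F, EMap m (nd (gN ℓ)) K ρ σ →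
    (∀ (J : TW n F) (h : F),
      (∀ x, J.pi P (σ x) = h → ∃ e ∈ Wall P J h, nd (gN ℓ) (σ x) e ≤ D) ∨
      (∀ x, J.pi P (σ x) ≠ h → ∃ e ∈ Wall P J h, nd (gN ℓ) (σ x) e ≤ D)) ∧
    (∀ (J J' : TW n F) (h h' : F), ∃ x, (∀ e ∈ Wall P J h, D < nd (gN ℓ) (σ x) e) ∧
      ∀ e ∈ Wall P J' h', D < nd (gN ℓ) (σ x) e)

/-- DEEP: points of arbitrary depth with respect to two walls. (from DD, LAMCOL, WALLS) -/
def S_DEEP : Prop := ∀ (n : ℕ) [NeZero n], 5 ≤ n → ∀ (F : Type) [Group F] (ℓ : F → ℕ), IsNorm ℓ →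
  ∀ (P : GP n F ℓ) (m k : ℕ) (ΔF : ℕ → ℕ), k + 3 ≤ m → Col k (nd ℓ) (Set.univ : Set F) ΔF →
  ∀ (K : ℕ) (ρ : ℕ → ℕ) (σ : V m → CP n F), EMap m (nd (gN ℓ)) K ρ σ →
    ∀ (r : ℕ) (J J' : TW n F) (h h' : F), ∃ x, (∀ e ∈ Wall P J h, r < nd (gN ℓ) (σ x) e) ∧
      ∀ e ∈ Wall P J' h', r < nd (gN ℓ) (σ x) e

/-- DFLAT: coarse embeddings of `Z^m` into the graph product stay near a flat. (from DIC, HEX) -/
def S_DFLAT : Prop := ∀ (n : ℕ) [NeZero n], 5 ≤ n → ∀ (F : Type) [Group F] (ℓ : F → ℕ), IsNorm ℓ →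
  ∀ (_ : GP n F ℓ) (m k : ℕ) (ΔF : ℕ → ℕ), k + 3 ≤ m → Col k (nd ℓ) (Set.univ : Set F) ΔF →
  ∀ (K : ℕ) (ρ : ℕ → ℕ), ∃ C : ℕ, ∀ σ : V m → CP n F, EMap m (nd (gN ℓ)) K ρ σ →
    ∃ (y : CP n F) (i : ZMod n), ∀ x, ∃ u ∈ Fl i, nd (gN ℓ) (σ x) (y * u) ≤ C

/-! ## Quasi-isometries -/

/-- a pair of coarse inverses -/
structure QIP {A B : Type*} (dA : A → A → ℕ) (dB : B → B → ℕ) (K : ℕ) (f : A → B) (g : B → A) :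
    Prop where
  f_le : ∀ x y, dB (f x) (f y) ≤ K * dA x y + K
  g_le : ∀ x y, dA (g x) (g y) ≤ K * dB x y + K
  gf : ∀ x, dA x (g (f x)) ≤ K
  fg : ∀ y, dB y (f (g y)) ≤ K

/-- `A ⊆ N_C(B)` -/
def Nb {X : Type*} (d : X → X → ℕ) (C : ℕ) (A B : Set X) : Prop := ∀ a ∈ A, ∃ b ∈ B, d a b ≤ C

/-- leaf flats: `y M_i M_{i+1}` -/
def LF {n : ℕ} {F : Type} [Group F] (M : Subgroup F) (y : CP n F) (i : ZMod n) : Set (CP n F) :=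
  {w | ∃ a ∈ M, ∃ b ∈ M, w = y * ι i a * ι (i + 1) b}

/-- leaf planes: `y M_i` -/
def PL {n : ℕ} {F : Type} [Group F] (M : Subgroup F) (y : CP n F) (i : ZMod n) : Set (CP n F) :=
  {w | ∃ a ∈ M, w = y * ι i a}

/-- flats: `y F_i F_{i+1}` -/
def FL {n : ℕ} {F : Type} [Group F] (y : CP n F) (i : ZMod n) : Set (CP n F) :=
  {w | ∃ a b : F, w = y * ι i a * ι (i + 1) b}

/-- abstract lamplighter-like structure: `M` the leaf subgroup, `τ` the toggle -/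
structure LampLike {F : Type} [Group F] (ℓ : F → ℕ) (M : Subgroup F) (τ : F) : Prop where
  /-- distinct leaves have bounded coarse intersection, of diameter depending only on the scale -/
  sep : ∀ r : ℕ, ∃ B : ℕ, ∀ a, a ∉ M → ∃ m₀ ∈ M, ∀ m ∈ M, ∀ m' ∈ M, ℓ (m⁻¹ * a * m') ≤ r →
    ℓ (m₀⁻¹ * m) ≤ B
  unb : ∀ r : ℕ, ∃ m ∈ M, r < ℓ m
  τ_notMem : τ ∉ M
  τ_le : ℓ τ ≤ 1
  gen : Subgroup.closure (insert τ (M : Set F)) = ⊤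
  comm : ∀ T : ℕ, ∃ t ∈ M, T < ℓ t ∧ T < ℓ (t * τ * t⁻¹) ∧ T < ℓ (t * τ * t⁻¹ * τ * t) ∧
    ∃ m ∈ M, t * τ * t⁻¹ * τ * t * τ = τ * m

/-- LLK: `L d k` is lamplighter-like for `d ≥ 1`. (from LP) -/
def S_LLK : Prop := ∀ (d k : ℕ) [NeZero k], 1 ≤ d → LampLike (LN d k) (L.M d k) L.tog

/-- LFIMG: quasi-isometries map leaf flats near leaf flats; the dichotomy for leaf flats; deep
points. (from DFLAT, LEAF, DIC, DEEP, LCOL, LP, GP, WALLS) -/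
def S_LFIMG : Prop := ∀ (d k₁ k₂ : ℕ) [NeZero k₁] [NeZero k₂], 4 ≤ d → ∀ (n : ℕ) [NeZero n],
  5 ≤ n → ∀ (P₂ : GP n (L d k₂) (LN d k₂)) (K : ℕ) (f : CP n (L d k₁) → CP n (L d k₂))
  (g : CP n (L d k₂) → CP n (L d k₁)), QIP (nd (gN (LN d k₁))) (nd (gN (LN d k₂))) K f g →
  (∃ C : ℕ, ∀ y i, ∃ y' i', Nb (nd (gN (LN d k₂))) C (f '' LF (L.M d k₁) y i)
    (LF (L.M d k₂) y' i')) ∧
  (∃ D : ℕ, ∀ y i, ∀ (J : TW n (L d k₂)) (h : L d k₂),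
      (∀ w ∈ LF (L.M d k₁) y i, J.pi P₂ (f w) = h →
        ∃ e ∈ Wall P₂ J h, nd (gN (LN d k₂)) (f w) e ≤ D) ∨
      (∀ w ∈ LF (L.M d k₁) y i, J.pi P₂ (f w) ≠ h →
        ∃ e ∈ Wall P₂ J h, nd (gN (LN d k₂)) (f w) e ≤ D)) ∧
  (∀ (r : ℕ) (y : CP n (L d k₁)) (i : ZMod n) (J : TW n (L d k₂)) (h : L d k₂),
    ∃ w ∈ LF (L.M d k₁) y i, ∀ e ∈ Wall P₂ J h, r < nd (gN (LN d k₂)) (f w) e)

/-- FFLAT: abstract: leaf flats to leaf flats implies flats to flats. (from WALLS) -/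
def S_FFLAT : Prop := ∀ (n : ℕ) [NeZero n], 5 ≤ n → ∀ (F₁ F₂ : Type) [Group F₁] [Group F₂]
  (ℓ₁ : F₁ → ℕ) (ℓ₂ : F₂ → ℕ), IsNorm ℓ₁ → IsNorm ℓ₂ →
  ∀ (M₁ : Subgroup F₁) (M₂ : Subgroup F₂) (τ₁ : F₁) (τ₂ : F₂), LampLike ℓ₁ M₁ τ₁ →
  LampLike ℓ₂ M₂ τ₂ → ∀ (_ : GP n F₁ ℓ₁) (P₂ : GP n F₂ ℓ₂) (K C D : ℕ)
  (f : CP n F₁ → CP n F₂) (g : CP n F₂ → CP n F₁),
  QIP (nd (gN ℓ₁)) (nd (gN ℓ₂)) K f g →
  (∀ y i, ∃ y' i', Nb (nd (gN ℓ₂)) C (f '' LF M₁ y i) (LF M₂ y' i')) →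
  (∀ y i, ∃ y' i', Nb (nd (gN ℓ₁)) C (g '' LF M₂ y i) (LF M₁ y' i')) →
  (∀ y i, ∀ (J : TW n F₂) (h : F₂),
      (∀ w ∈ LF M₁ y i, J.pi P₂ (f w) = h → ∃ e ∈ Wall P₂ J h, nd (gN ℓ₂) (f w) e ≤ D) ∨
      (∀ w ∈ LF M₁ y i, J.pi P₂ (f w) ≠ h → ∃ e ∈ Wall P₂ J h, nd (gN ℓ₂) (f w) e ≤ D)) →
  (∀ (r : ℕ) (y : CP n F₁) (i : ZMod n) (J : TW n F₂) (h : F₂),
    ∃ w ∈ LF M₁ y i, ∀ e ∈ Wall P₂ J h, r < nd (gN ℓ₂) (f w) e) →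
  ∃ C' : ℕ, ∀ y i, ∃ y' i', Nb (nd (gN ℓ₂)) C' (f '' FL y i) (FL y' i')

/-- GTREE: flats to flats implies a bilipschitz bijection of vertex groups. (from WALLS) -/
def S_GTREE : Prop := ∀ (n : ℕ) [NeZero n], 5 ≤ n → ∀ (F₁ F₂ : Type) [Group F₁] [Group F₂]
  (ℓ₁ : F₁ → ℕ) (ℓ₂ : F₂ → ℕ), IsNorm ℓ₁ → IsNorm ℓ₂ → (∀ r : ℕ, ∃ a, r < ℓ₁ a) →
  (∀ r : ℕ, ∃ a, r < ℓ₂ a) → ∀ (_ : GP n F₁ ℓ₁) (_ : GP n F₂ ℓ₂) (K C : ℕ)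
  (f : CP n F₁ → CP n F₂) (g : CP n F₂ → CP n F₁),
  QIP (nd (gN ℓ₁)) (nd (gN ℓ₂)) K f g →
  (∀ y i, ∃ y' i', Nb (nd (gN ℓ₂)) C (f '' FL y i) (FL y' i')) →
  (∀ y i, ∃ y' i', Nb (nd (gN ℓ₁)) C (g '' FL y i) (FL y' i')) →
  ∃ (β : F₁ ≃ F₂) (K' : ℕ), ∀ x y, nd ℓ₂ (β x) (β y) ≤ K' * nd ℓ₁ x y ∧
    nd ℓ₁ x y ≤ K' * nd ℓ₂ (β x) (β y)

/-! ## Final statement -/

/-- the word metric of a finite generating set -/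
noncomputable def wd {G : Type} [Group G] (S : Set G) (x y : G) : ℕ := wl S (x⁻¹ * y)

/-- quasi-isometry of finitely generated groups: for some finite generating sets there is a map
with the usual inequalities (constants `K`, `C`) which is coarsely onto. -/
def QI (G H : Type) [Group G] [Group H] : Prop :=
  ∃ (S : Set G) (T : Set H), S.Finite ∧ T.Finite ∧ Subgroup.closure S = ⊤ ∧
    Subgroup.closure T = ⊤ ∧ ∃ (f : G → H) (K C : ℕ),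
      (∀ x y, wd T (f x) (f y) ≤ K * wd S x y + C ∧ wd S x y ≤ K * wd T (f x) (f y) + C) ∧
      ∀ h, ∃ x, wd T (f x) h ≤ C

/-- FINAL -/
def S_FINAL : Prop := ∀ n : ℕ, 5 ≤ n → ∃ (G H : Type) (_ : Group G) (_ : Group H),
  Infinite G ∧ Infinite H ∧ Group.FG G ∧ Group.FG H ∧ QI G H ∧ ¬ QI (CP n G) (CP n H)

end CQ
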