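import Pool.Agent.Helper28.CQ.Stmts

set_option autoImplicit false

/-!
# Statements used inside the module FFLAT (rigidity of leaf flats, leaf planes, flats; intersections)
-/

namespace CQ

/-- R_LF: rigidity of leaf flats -/
def S_RLF : Prop := ∀ (n : ℕ) [NeZero n], 5 ≤ n → ∀ (F : Type) [Group F] (ℓ : F → ℕ), IsNorm ℓ →
  ∀ (M : Subgroup F) (τ : F), LampLike ℓ M τ → ∀ (P : GP n F ℓ), Walls P →
  ∀ (C : ℕ) (y y' : CP n F) (i i' : ZMod n), Nb (nd (gN ℓ)) C (LF M y i) (LF M y' i') →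
    i = i' ∧ (∃ a ∈ M, ∃ b ∈ M, y' = y * ι i a * ι (i + 1) b) ∧ LF M y i = LF M y' i'

/-- R_PL: rigidity of leaf planes -/
def S_RPL : Prop := ∀ (n : ℕ) [NeZero n], 5 ≤ n → ∀ (F : Type) [Group F] (ℓ : F → ℕ), IsNorm ℓ →
  ∀ (M : Subgroup F) (τ : F), LampLike ℓ M τ → ∀ (P : GP n F ℓ), Walls P →
  ∀ (C : ℕ) (y y' : CP n F) (i i' : ZMod n), Nb (nd (gN ℓ)) C (PL M y i) (PL M y' i') →
    i = i' ∧ ∃ b ∈ M, ∃ u ∈ Lam i, y' = y * ι i b * u ∧ gN ℓ u ≤ C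

/-- R_FL: rigidity of flats (only needs that `ℓ` is unbounded) -/
def S_RFL : Prop := ∀ (n : ℕ) [NeZero n], 5 ≤ n → ∀ (F : Type) [Group F] (ℓ : F → ℕ), IsNorm ℓ →
  (∀ r : ℕ, ∃ a, r < ℓ a) → ∀ (P : GP n F ℓ), Walls P →
  ∀ (C : ℕ) (y y' : CP n F) (i i' : ZMod n), Nb (nd (gN ℓ)) C (FL y i) (FL y' i') →
    i = i' ∧ y⁻¹ * y' ∈ Fl i ∧ FL y i = FL y' i'

/-- INT: the coarse intersection of two distinct leaf flats is contained in a neighbourhood of a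
leaf plane -/
def S_INT : Prop := ∀ (n : ℕ) [NeZero n], 5 ≤ n → ∀ (F : Type) [Group F] (ℓ : F → ℕ), IsNorm ℓ →
  ∀ (M : Subgroup F) (τ : F), LampLike ℓ M τ → ∀ (P : GP n F ℓ), Walls P →
  ∀ r : ℕ, ∃ r' : ℕ, ∀ (y₁ y₂ : CP n F) (i₁ i₂ : ZMod n), LF M y₁ i₁ ≠ LF M y₂ i₂ →
    ∃ (y : CP n F) (i : ZMod n), ∀ w, (∃ p ∈ LF M y₁ i₁, nd (gN ℓ) w p ≤ r) →
      (∃ p ∈ LF M y₂ i₂, nd (gN ℓ) w p ≤ r) → ∃ p ∈ PL M y i, nd (gN ℓ) w p ≤ r'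

/-- the abstract two-sided trick: `𝒫₁, 𝒫₂` families of subsets, `f` and `g` coarse inverses mapping
members near members; if inclusion up to bounded distance in `𝒫₁` can be reversed, then the images
are coarsely dense. -/
def S_TWOSIDED : Prop := ∀ (X Y : Type) (dX : X → X → ℕ) (dY : Y → Y → ℕ),
  (∀ x y, dX x y = dX y x) → (∀ x y z, dX x z ≤ dX x y + dX y z) →
  (∀ x y, dY x y = dY y x) → (∀ x y z, dY x z ≤ dY x y + dY y z) →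
  ∀ (𝒫₁ : Set (Set X)) (𝒫₂ : Set (Set Y)) (K C : ℕ) (f : X → Y) (g : Y → X),
  QIP dX dY K f g → (∀ A ∈ 𝒫₁, ∃ B ∈ 𝒫₂, Nb dY C (f '' A) B) →
  (∀ B ∈ 𝒫₂, ∃ A ∈ 𝒫₁, Nb dX C (g '' B) A) →
  (∀ C₁ : ℕ, ∃ C₂ : ℕ, ∀ A ∈ 𝒫₁, ∀ A' ∈ 𝒫₁, Nb dX C₁ A A' → Nb dX C₂ A' A) →
  ∃ C₃ : ℕ, ∀ A ∈ 𝒫₁, ∀ B ∈ 𝒫₂, Nb dY C (f '' A) B → Nb dY C₃ B (f '' A)

end CQ
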